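import Pool.Agent.H72.T4T.Fz
import Pool.Agent.H36.T4.Cvn
import Pool.Agent.H48.T4X.Img
import Pool.Agent.H62.T4.Slo
import Pool.Agent.H17.IMN.Fin

/-!
# The images of the heights from a record

`lvl_box`: the levels of a box. `lbS_box`: natural affine labels with bounded slopes of the windows of
a box. `img_of`: `ImgStmt`. `imgEx : ImgEx`.
-/

set_option autoImplicit false

namespace Pool.T4T72

open Finset Real MvPolynomial
open Pool.Agent.H49.Ent Pool.Agent.H32.Dense Pool.STK Pool.KA Pool.KSAT Pool.K2S Pool.PB Pool.S6C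
open Pool.GEN Pool.CHT Pool.RCD Pool.LA91 Pool.PKG Pool.V0F
open Pool.GRD (LbP)
open Pool.CDX (AffL)
open Pool.T4C72 (BoxT SlEq)
open Pool.T4J (Lvl Lb0 lba_of frG frH LbN)
open Pool.T4N (AffAt IMN FrmP Frm)
open Pool.T462 (lbws_ex SloP)
open Pool.T4V36 (LbS imn_of)
open Pool.T4X (imk_rec)

section

variable {S : PCl 4} {c : ℕ → Fin 4} {sn sp : ℕ → ℝ → ℝ} {G : Set ℝ} {D : ℕ}
  {s hr b o t q Λ φ' e : ℝ} {lam : ℝ → ℝ} {bl pl : ℕ → ℝ}

/-- **The levels of a box.** -/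
theorem lvl_box {e₁ v : ℝ} (Bx : BoxT S c 1 2 D sn sp G s hr b o t q Λ φ' e lam) (hs : 1 < s)
    (he₁ : 0 ≤ e₁) (hΛ : 0 ≤ Λ) (hA : AffAt S c sn t e₁ bl pl)
    (hAll : ∀ v ∈ G, ∃ bl' pl' : ℕ → ℝ, AffAt S c sn v e₁ bl' pl')
    (hv : v ∈ G) (htv : t ≤ v) (hvΛ : v ≤ t + Λ * q) :
    Lvl S c 3 sn G t v φ' (3 * φ') s e₁ (fun l => bl (l - 1)) (fun l => pl (l - 1)) := by
  have LL := Bx.lad
  have hq := Bx.u0
  have hΛq : 0 ≤ Λ * q := mul_nonneg hΛ hq.le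
  have hbt : b ≤ t := by linarith [Bx.bw]
  have hto : t + Λ * q ≤ o := Bx.wo
  have hφ := LL.φ0
  refine ⟨LL.tm, ⟨3, le_rfl, LL.ch⟩, LL.inj, Bx.wG, hv, htv, hφ, by linarith, by linarith,
    he₁, fun x h1 h2 => LL.gap x (hbt.trans h1) (by linarith), ?_, ?_, ?_, ?_⟩
  · intro i h1 h2 l hl x hx x' hx' g1 g2 g3
    have hbx : b ≤ x := hbt.trans g1
    have hxo : x' ≤ o := by linarith
    rcases Nat.eq_zero_or_pos l with h3 | h3
    · subst h3
      have e1 := LL.fl 0 (by norm_num) x hx hbx (g2.trans hxo)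
      have e2 := LL.fl 0 (by norm_num) x' hx' (hbx.trans g2) hxo
      have e3 := LL.st i h1 (by omega) x hx x' hx' hbx g2 hxo
      rw [abs_le] at e1 e2
      linarith [e1.1, e1.2, e2.1, e2.2]
    · have e1 := LL.eqa (l := l) h3 (by omega) x hx x' hx' hbx g2 hxo
      have e2 := LL.eqa (l := i) h1 (by omega) x hx x' hx' hbx g2 hxo
      rw [abs_le] at e1 e2
      linarith [e1.1, e1.2, e2.1, e2.2]
  · intro l hl x hx x' hx' g1 g2 g3
    have hbx : b ≤ x := hbt.trans g1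
    have hxo : x' ≤ o := by linarith
    rcases Nat.eq_zero_or_pos l with h3 | h3
    · subst h3
      have e1 := LL.fl 0 (by norm_num) x hx hbx (g2.trans hxo)
      have e2 := LL.fl 0 (by norm_num) x' hx' (hbx.trans g2) hxo
      have e3 : 1 * (x' - x) ≤ s * (x' - x) := mul_le_mul_of_nonneg_right hs.le (by linarith)
      rw [abs_le] at e1 e2
      linarith [e1.1, e1.2, e2.1, e2.2]
    · have e1 := Bx.lin l h3 (by omega) x hx hbx (g2.trans hxo)
      have e2 := Bx.lin l h3 (by omega) x' hx' (hbx.trans g2) hxo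
      have e3 : s * (x' - x) = s * (x' - t) - s * (x - t) := by ring
      rw [abs_le] at e1 e2
      linarith [e1.1, e1.2, e2.1, e2.2]
  · intro l h1 h2
    have h3 := hA (l - 1) (by omega)
    rw [show 1 + (l - 1) = l by omega] at h3
    exact ⟨h3.1, h3.2.1⟩
  · intro w hw h1 h2
    obtain ⟨bl', pl', h3⟩ := hAll w hw
    refine ⟨fun l => bl' (l - 1), fun l => pl' (l - 1), fun l g1 g2 => ?_⟩
    have h4 := h3 (l - 1) (by omega)
    rw [show 1 + (l - 1) = l by omega] at h4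
    exact h4

/-- The closed label of `c 0` of a box. -/
theorem l0_box {v : ℝ} (Bx : BoxT S c 1 2 D sn sp G s hr b o t q Λ φ' e lam) (hv : v ∈ G)
    (hbv : b ≤ v) (hvo : v ≤ o) {e' : ℝ} (he' : 0 < e') :
    Bas S (fun J F A => Lb0 F c D ⌊v * J⌋₊ ⌊(sn 0 v - e') * J⌋₊ A) := by
  obtain ⟨E, rd, ρ, -, -, h1⟩ := Bx.lab v hv hbv hvo
  refine Bas.mono 0 (h1 e' he') ?_
  rintro J - F A ⟨V, z, z', g, hl⟩
  have h2 := LbP.of (hl 0 (by norm_num))
  rw [show (range 0).image c = ∅ by simp] at h2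
  exact ⟨V, z, z', _, h2⟩

/-- **Natural affine labels with bounded slopes** of a window of a box. -/
theorem lbS_box {e₁ v ε x : ℝ} (Bx : BoxT S c 1 2 D sn sp G s hr b o t q Λ φ' e lam) (hs : 1 < s)
    (he₁ : 0 < e₁) (hΛ : 0 ≤ Λ) (hφ : φ' ≤ e₁) (hA : AffAt S c sn t e₁ bl pl)
    (hAll : ∀ v ∈ G, ∃ bl' pl' : ℕ → ℝ, AffAt S c sn v e₁ bl' pl')
    (hv : v ∈ G) (htv : t ≤ v) (hvΛ : v ≤ t + Λ * q)
    (hε : (9 * s + 31) * e₁ ≤ ε) (hlow : ∀ l, 1 ≤ l → l ≤ 3 → (9 * s + 31) * e₁ ≤ sn l v)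
    (hx : 1 - Λ * q + 14 * ((9 * s + 31) * e₁) ≤ x + ε) (hvx : v ≤ 1 - Λ * q) :
    LbS S c sn bl pl t v ε x := by
  intro η hη
  have hq := Bx.u0
  have hφ0 := Bx.lad.φ0
  have hΛq : 0 ≤ Λ * q := mul_nonneg hΛ hq.le
  have hbt : b ≤ t := by linarith [Bx.bw]
  have hto : t + Λ * q ≤ o := Bx.wo
  obtain ⟨E₁, hE₁⟩ : ∃ E₁ : ℝ, E₁ = e₁ + (3 : ℕ) * (((3 : ℕ) + 1) * e₁ +
    (3 * s * φ' + 2 * (3 * φ'))) := ⟨_, rfl⟩
  have hE₁1 : E₁ ≤ (9 * s + 31) * e₁ := by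
    have e1 : s * φ' ≤ s * e₁ := mul_le_mul_of_nonneg_left hφ (by linarith)
    rw [hE₁]
    push_cast
    linarith
  obtain ⟨E, rd, ρ, -, k1, k2⟩ := Bx.lab v hv (hbt.trans htv) (hvΛ.trans hto)
  obtain ⟨e₀, he₀, h1⟩ := lbws_ex (D := D) Bx.lad.pos (K := 1) (vs := fun _ => v)
    (fun k hk => lvl_box Bx hs he₁.le hΛ hA hAll hv htv hvΛ)
    (fun k hk e' he' => l0_box Bx hv (hbt.trans htv) (hvΛ.trans hto) he') he₁ hE₁
    (Y := 1 - Λ * q) (fun k hk => hvx) (fun k hk l a b => hE₁1.trans (hlow l a b)) (fun k hk =>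
      ⟨D, E, rd, fun l hl => ⟨(k1 l (by omega)).1, by linarith [(k1 l (by omega)).2.1]⟩, k2⟩)
    (ε' := (9 * s + 31) * e₁) (by positivity) hη
  refine ⟨e₀, he₀, Bas.mono 0 h1 ?_⟩
  intro J _ F A h2 Fr hFr
  obtain ⟨B, h3, h4, h5⟩ := h2 (frG Fr) (frH Fr) (lba_of hFr)
  obtain ⟨⟨GB, HB, h6, h7⟩, -⟩ := h5 0 one_pos
  refine ⟨B, GB, HB, h3, h4, h6.le (hE₁1.trans hε), fun ω hω l a b o => (h7 ω hω l a b o).trans ?_⟩
  refine Real.rpow_le_rpow_of_exponent_le (by norm_num)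
    (mul_le_mul_of_nonneg_right ?_ (Nat.cast_nonneg J))
  push_cast
  linarith

end

/-- **The images of the heights are full**, from a record. -/
theorem img_of {h : ℝ} {Sl : ℕ → ℝ} {κ : ℕ → Kg} (hSl : SlEq Sl) :
    ImgStmt h Sl κ (FzQ : PropG 4 Unit) := by
  intro D S₀ K₀ Λ e hD hS₀ hK₀ hΛ he
  obtain ⟨C, hC1, hCe, hC⟩ := Pool.T4I.imC_sp Pool.IMN17.imK_of
  obtain ⟨s, hse⟩ : ∃ s, s = Sl 3 := ⟨_, rfl⟩
  have hs : 1 < s := by rw [hse]; exact hSl.2.1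
  obtain ⟨E, hE⟩ : ∃ E : ℝ, E = 9 * s + 31 := ⟨_, rfl⟩
  have hE0 : 0 < E := by rw [hE]; linarith
  have hE1 : 1 ≤ E := by rw [hE]; linarith
  obtain ⟨e', he'e⟩ : ∃ e' : ℝ, e' = min (e / (28 * E)) 1 := ⟨_, rfl⟩
  have he'0 : 0 < e' := by rw [he'e]; exact lt_min (by positivity) one_pos
  have he'1 : 28 * E * e' ≤ e := by
    have h1 : e' ≤ e / (28 * E) := by rw [he'e]; exact min_le_left _ _
    rw [le_div_iff₀ (by positivity)] at h1
    linarith
  obtain ⟨Λ', hΛ'e⟩ : ∃ Λ' : ℝ, Λ' = (s + 2) * Λ + 40 * e + 4 := ⟨_, rfl⟩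
  have hsΛ : 0 < s * Λ := by positivity
  have hΛ'1 : Λ ≤ Λ' := by
    rw [hΛ'e]
    linarith
  refine ⟨Λ', e', by linarith, he'0, ?_⟩
  intro M₀ cb co hM₀ hcb hco Sa P θ P₂ θ₂ Eb e₂ c Pt r L Tb G g hG hg hder
  refine ⟨fun _ => (), 1, fun k₀ hQ => ⟨1, one_pos, ?_⟩⟩
  have hF : ∀ k, 1 ≤ k → k < 4 → FZX k := hQ 0 one_pos
  intro S al' g₀ N S₂ A V V' K ε q t sp φ' lam bl pl hSa hq1 R hV' hK hε hφ' hM Bx hA hAll v hv htv hvΛ
  have hq := Bx.u0
  have hφ0 := Bx.lad.φ0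
  rw [← hse] at Bx
  obtain ⟨Gs, hGs⟩ : ∃ Gs : Set ℝ, Gs = {v | ∃ j < (cb + co) * M₀ + 1, v = t + chV M₀ cb j * q} :=
    ⟨_, rfl⟩
  rw [← hGs] at Bx hAll hv
  have heq : 0 < e * q := mul_pos he hq
  have he'q : 0 < e' * q := mul_pos he'0 hq
  have hEq : 28 * (E * (e' * q)) ≤ e * q := by
    have := mul_le_mul_of_nonneg_right he'1 hq.le
    linarith
  have hEq' : e' * q ≤ E * (e' * q) := le_mul_of_one_le_left he'q.le hE1
  have hcb0 : (0 : ℝ) ≤ cb := Nat.cast_nonneg cb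
  have hco0 : (0 : ℝ) ≤ co := Nat.cast_nonneg co
  have hΛ'q : Λ' * q = s * (Λ * q) + 2 * (Λ * q) + 40 * (e * q) + 4 * q := by
    rw [hΛ'e]
    ring
  have hΛq : 0 < Λ * q := by positivity
  have hqΛ : q ≤ Λ * q := le_mul_of_one_le_left hq.le hΛ
  have hsΛq : Λ * q ≤ s * (Λ * q) := le_mul_of_one_le_left hΛq.le hs.le
  have hbt : t - cb * q + Λ' * q ≤ t := Bx.bw
  have hto : t + Λ' * q ≤ t + co * q := Bx.wo
  have ho1 := Bx.o1
  have hb0 := Bx.b0
  have hKq : (cb + co + Λ') * q ≤ K * q := mul_le_mul_of_nonneg_right hK hq.le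
  have hcbq : 0 ≤ (cb : ℝ) * q := by positivity
  have hcoq : 0 ≤ (co : ℝ) * q := by positivity
  have hKcb : cb * q + 4 * q ≤ K * q := by linarith
  have hKco : co * q + 4 * q ≤ K * q := by linarith
  have hεq : ε * q ≤ e' * q := mul_le_mul_of_nonneg_right hε hq.le
  have hvo : v ≤ t + co * q := by linarith
  have hbv : t - cb * q ≤ v := by linarith
  have h40 : 0 < t - cb * q := by linarith
  have hlowv : ∀ l ≤ 3, v ≤ L l v v := fun l hl => by
    have h2 := R.t1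
    exact rec_low (r := 3) R hl (by linarith) (by linarith)
  obtain ⟨E₂, rd, ρ, -, k1, -⟩ := Bx.lab v hv hbv hvo
  have hlin : ∀ l, 1 ≤ l → l ≤ 3 → |L l v v - L l t t - s * (v - t)| ≤ φ' := fun l h1 h2 =>
    Bx.lin l h1 (by omega) v hv hbv hvo
  have hl0 := abs_le.1 (R.l0 t (by
    rw [sub_self, abs_zero]
    linarith))
  have hsv : s * (v - t) ≤ s * (Λ * q) := mul_le_mul_of_nonneg_left (by linarith) (by linarith)
  -- the images over the own frame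
  have hI := imk_rec (x := 1 - Λ * q) (κ' := 20 * (e * q)) hC (hF 2 (by norm_num) (by norm_num))
    (hF 3 (by norm_num) (by norm_num)) R Bx.lad hv hbv (by linarith) (by linarith)
    (by linarith) (by linarith) (by linarith) (by linarith) (by linarith)
    (fun l hl => ⟨by linarith [hlowv (1 + l) (by omega)], by
      have h2 := k1 (1 + l) (by omega)
      linarith [h2.1, h2.2.1]⟩)
  have hLb := lbS_box (x := 1 - Λ * q) (ε := e * q / 2) Bx hs he'q (by linarith) hφ' hA hAll hv htv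
    (by linarith) (by rw [← hE]; linarith)
    (fun l h1 h2 => by rw [← hE]; linarith [hlowv l h2]) (by rw [← hE]; linarith) (by linarith)
  refine imn_of (κ' := C * (20 * (e * q))) (ε₁ := e * q) Bx.lad.pos R.inj (by linarith)
    (fun i hi => (hA i hi).1.trans htv) hLb hI (by linarith) heq.le (fun i j h1 h2 h3 => ?_)
    (by linarith) (by positivity) (by linarith) (fun l h1 h2 => ?_) ?_
  · have h4 := abs_le.1 (hlin i (by omega) h3)
    have h5 := abs_le.1 (hlin j h1 (by omega))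
    show L i v v - L i t t + e * q / 2 ≤ L j v v - L j t t + e * q
    linarith [h4.2, h5.1]
  · have h4 := abs_le.1 (hlin l h1 h2)
    show L l v v + Λ * q + e * q / 2 + L 0 t t - L l t t + 16 * (e * q) < 1
    linarith [h4.2, hl0.2]
  · rw [hCe]
    have : 0 < C * (e * q) := by positivity
    linarith

/-- **The images of the heights.** -/
theorem imgEx : ImgEx := fun _ _ _ =>
  ⟨Unit, inferInstance, FzQ, her_fz 4, fun hZ => aePG_fz hZ, fun _ _ hS => img_of hS⟩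

/-- **One contact coordinate**, the target with the slope of the tie, from the dichotomy and the
affine labels of the place three. -/
theorem pOne_t4' (hC : Pool.T4N.T4ClsStmt) (hN : NafNear 4) :
    Pool.ASM.POne fun a b => a = b := pOne_t4 hC hN imgEx

end Pool.T4T72
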