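import Pool.Agent.H72.T4T.Img
import Pool.Agent.H48.T4X.Fin
import Pool.Agent.H24.NV.Naf

/-!
# One contact coordinate, the target with the slope of the tie

`pOne_ab : POne (a = b)`: the windows with one contact coordinate and three equal slopes.
-/

set_option autoImplicit false

namespace Pool.T4T72

/-- **One contact coordinate**, the target with the slope of the tie. -/
theorem pOne_ab : Pool.ASM.POne fun a b => a = b := pOne_t4' Pool.T4X.t4cls (Pool.NV24.nafNear 4)

end Pool.T4T72
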