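import Pool.Agent.H72.T4T.Num
import Pool.Agent.H71.NS.Ns6

/-!
# The tie on one class from the dichotomy

`tie_cls`: in a box with affine labels, images and activity, in a subclass, the tie in one of finitely
many windows.
-/

set_option autoImplicit false

namespace Pool.T4T72

open Finset Real MvPolynomial
open Pool.Agent.H49.Ent Pool.Agent.H32.Dense Pool.STK Pool.KA Pool.KSAT Pool.K2S Pool.PB Pool.S6C
open Pool.GEN Pool.RCD Pool.LA91 Pool.OWN83 Pool.FVL91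
open Pool.CDX (AffL)
open Pool.V0T (LadT)
open Pool.T4C72 (BoxT TieW)
open Pool.PRC54 (yQ)
open Pool.T462 (FewN num4T)
open Pool.T4A95 (ActI)
open Pool.T4N (AffAt dgV NumV IMN T4ClsStmt)

/-- **The tie on one class.** -/
theorem tie_cls (hC : T4ClsStmt) (s hr : ℝ) (hs : 1 < s) (hr0 : 0 < hr) (hr1 : hr ≤ 1)
    (δ T₀ : ℝ) (hδ : 0 < δ) :
    ∃ (T : ℝ) (L n : ℕ) (ΛI eI Λ₀ φs : ℝ), T₀ ≤ T ∧ 1 ≤ L ∧ 1 ≤ n ∧ 1 ≤ ΛI ∧ 0 < eI ∧ 1 ≤ Λ₀ ∧
      0 < φs ∧ ∀ φ : ℝ, 0 < φ → φ ≤ φs → ∃ e : ℝ, 0 < e ∧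
    ∀ {D : ℕ} {S : PCl 4} {c : ℕ → Fin 4} {sn sp : ℕ → ℝ → ℝ} {G : Set ℝ}
      {b o t q φ' a M Λ : ℝ} {lam : ℝ → ℝ} {bl pl : ℕ → ℝ}, Λ₀ ≤ Λ → 1 ≤ D → S.Ne →
      Bas S (fun J F A => (cnt F.p (ptr F J) A : ℝ) ≤ Real.exp (M * J)) →
      BoxT S c 1 2 D sn sp G s hr b o t q Λ φ' e lam →
      (∀ k p : ℕ, 1 ≤ k → k ≤ n → p ≤ L ^ k → ∃ sp' : ℕ → ℝ → ℝ,
        BoxT S c 1 2 D sn sp' G s hr b o (t + (p / (L : ℝ) ^ k) * q) (q / (2 * (L : ℝ) ^ k)) Λ φ' e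
          lam) → φ' ≤ e * q →
      (∀ v ∈ G, t ≤ v → v ≤ t + Λ * q → |sn 0 v - v| ≤ e * q) →
      (∀ l < 3, t ≤ sn (1 + l) t + e * q) → AffAt S c sn t (e * q) bl pl →
      (∀ v ∈ G, t ≤ v → v ≤ t + Λ * q → ∃ bl' pl' : ℕ → ℝ, AffAt S c sn v (e * q) bl' pl') →
      (∀ v ∈ G, t ≤ v → v ≤ t + ΛI * q → IMN S c sn bl pl v (ΛI * q) (eI * q)) → 0 < a →
      (∀ P Q : ℝ, 0 ≤ P → P + e * q ≤ Q → Q ≤ Λ * q → ActI S (c 0) a P Q) →
      (∀ i ≤ L ^ n, t + (i / (L : ℝ) ^ n) * q ∈ G) →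
      ∃ S' : PCl 4, S'.Ne ∧ (∀ (τ : ℝ) (J : ℕ) (F : Fam 4 J) (A : F.Ω → Prop),
        S'.St τ J F A → S.St τ J F A) ∧ ∃ k p : ℕ, 1 ≤ k ∧ k ≤ n ∧ p ≤ L ^ k ∧
        TieW S' c 1 2 D D (fun i : Fin (2 + 1) => (i : ℕ)) sn G s b (t + (p / (L : ℝ) ^ k) * q)
          (q / (2 * (L : ℝ) ^ k)) Λ T δ (φ * (q / (2 * (L : ℝ) ^ k))) φ' D := by
  obtain ⟨δ₁, hδ₁, hN1⟩ := Pool.NS71.nearS 2 s hr (δ / 2) hs (by linarith)
  obtain ⟨δ', hδ'e⟩ : ∃ δ', δ' = min δ₁ δ / 8 := ⟨_, rfl⟩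
  have hδ'0 : 0 < δ' := by
    have := lt_min hδ₁ hδ
    rw [hδ'e]
    linarith
  have hδ'1 : 8 * δ' ≤ δ₁ := by rw [hδ'e]; linarith [min_le_left δ₁ δ]
  have hδ'2 : 8 * δ' ≤ δ := by rw [hδ'e]; linarith [min_le_right δ₁ δ]
  obtain ⟨L, i₁, j₁, i₂, j₂, κ₀, T₁, hij₁, hj₁, hij₂, hj₂, hs₁, hs₂, hκ₀, hC⟩ :=
    hC s hr δ' hs hr0 hr1 hδ'0
  have hL : 1 ≤ L := by omega
  obtain ⟨n, hn, hNum⟩ := num4T s hs L hL κ₀ hκ₀
  have hL1 : (1 : ℝ) ≤ L := by exact_mod_cast hL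
  have hL0 : (0 : ℝ) < L := by linarith
  obtain ⟨A, hA⟩ : ∃ A : ℝ, A = (L : ℝ) ^ n := ⟨_, rfl⟩
  have hA1 : 1 ≤ A := by rw [hA]; exact one_le_pow₀ hL1
  have hA0 : 0 < A := by linarith
  obtain ⟨TV, hTVe⟩ : ∃ TV, TV = max T₁ (s + 3) := ⟨_, rfl⟩
  have hTV1 : T₁ ≤ TV := by rw [hTVe]; exact le_max_left _ _
  have hTV2 : s + 3 ≤ TV := by rw [hTVe]; exact le_max_right _ _
  obtain ⟨ΛC, eC, hΛC, heC, hC⟩ := hC TV A hTV1 hA1
  obtain ⟨σ₁, hσ₁e⟩ : ∃ σ₁, σ₁ = min (min eC 1) (1 / (12 * A)) := ⟨_, rfl⟩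
  have hσ₁0 : 0 < σ₁ := by rw [hσ₁e]; exact lt_min (lt_min heC one_pos) (by positivity)
  have hσ₁C : σ₁ ≤ eC := by rw [hσ₁e]; exact (min_le_left _ _).trans (min_le_left _ _)
  have hσ₁1 : σ₁ ≤ 1 := by rw [hσ₁e]; exact (min_le_left _ _).trans (min_le_right _ _)
  have hσ₁A : 12 * A * σ₁ ≤ 1 := by
    have h1 : σ₁ ≤ 1 / (12 * A) := by rw [hσ₁e]; exact min_le_right _ _
    rw [le_div_iff₀ (by positivity)] at h1
    linarith
  obtain ⟨Λn, en, hΛn, hen, hNum⟩ := hNum TV σ₁ hTV2 hσ₁0 hσ₁1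
  obtain ⟨T, hTe⟩ : ∃ T, T = max T₀ (2 * A * (TV + 1)) := ⟨_, rfl⟩
  have hT0 : T₀ ≤ T := by rw [hTe]; exact le_max_left _ _
  have hTA : 2 * A * (TV + 1) ≤ T := by rw [hTe]; exact le_max_right _ _
  have hT4 : 4 ≤ T := by nlinarith
  obtain ⟨φ₀, ΛN, hφ₀, hΛN, hN1⟩ := hN1 T (by linarith)
  obtain ⟨Λ₀, hΛ₀e⟩ : ∃ Λ₀, Λ₀ = max (max ΛC Λn) (max ΛN (s + 4)) := ⟨_, rfl⟩
  obtain ⟨φs, hφse⟩ : ∃ φs, φs = min φ₀ (min (1 / 160) ((s - 1) / (63 + s))) := ⟨_, rfl⟩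
  have hφs0 : 0 < φs := by
    rw [hφse]
    exact lt_min hφ₀ (lt_min (by norm_num) (div_pos (by linarith) (by linarith)))
  have hC1 : ΛC ≤ Λ₀ := by rw [hΛ₀e]; exact (le_max_left _ _).trans (le_max_left _ _)
  have hC2 : Λn ≤ Λ₀ := by rw [hΛ₀e]; exact (le_max_right _ _).trans (le_max_left _ _)
  have hC3 : ΛN ≤ Λ₀ := by rw [hΛ₀e]; exact (le_max_left _ _).trans (le_max_right _ _)
  have hC4 : s + 4 ≤ Λ₀ := by rw [hΛ₀e]; exact (le_max_right _ _).trans (le_max_right _ _)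
  refine ⟨T, L, n, ΛC, eC, Λ₀, φs, hT0, hL, hn, hΛC, heC, hΛC.trans hC1, hφs0,
    fun φ hφ hφs => ?_⟩
  have hφ1 : 160 * φ ≤ 1 := by
    have : φs ≤ 1 / 160 := by rw [hφse]; exact (min_le_right _ _).trans (min_le_left _ _)
    linarith
  have hφ2 : (63 + s) * φ ≤ s - 1 := by
    have h1 : φ ≤ (s - 1) / (63 + s) := hφs.trans (by
      rw [hφse]
      exact (min_le_right _ _).trans (min_le_right _ _))
    rw [le_div_iff₀ (by linarith)] at h1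
    linarith
  obtain ⟨eN, heN, hN1⟩ := hN1 φ hφ (hφs.trans (by rw [hφse]; exact min_le_left _ _))
  obtain ⟨e, he, g1, g2, g3, g4, g5, g6⟩ : ∃ e : ℝ, 0 < e ∧ e ≤ eC ∧ e ≤ en ∧ 2 * A * e ≤ eN ∧
      40 * (s + 1) * e ≤ σ₁ ∧ 20 * A * e ≤ φ ∧ 8 * A * e ≤ 1 := by
    refine ⟨min (min eC en) (min (eN / (2 * A)) (min (σ₁ / (40 * (s + 1)))
      (min (φ / (20 * A)) (1 / (8 * A))))), ?_, (min_le_left _ _).trans (min_le_left _ _),
      (min_le_left _ _).trans (min_le_right _ _), ?_, ?_, ?_, ?_⟩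
    · have hs1 : 0 < 40 * (s + 1) := by linarith
      exact lt_min (lt_min heC hen) (lt_min (by positivity) (lt_min (by positivity)
        (lt_min (by positivity) (by positivity))))
    all_goals
      rw [mul_comm, ← le_div_iff₀ (by first | positivity | linarith)]
    · exact (min_le_right _ _).trans (min_le_left _ _)
    · exact (min_le_right _ _).trans ((min_le_right _ _).trans (min_le_left _ _))
    · exact (min_le_right _ _).trans ((min_le_right _ _).trans ((min_le_right _ _).trans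
        (min_le_left _ _)))
    · exact (min_le_right _ _).trans ((min_le_right _ _).trans ((min_le_right _ _).trans
        (min_le_right _ _)))
  refine ⟨e, he, ?_⟩
  intro D S c sn sp G b o t q φ' a M Λ lam bl pl hΛ hD hS hM Bx hBx hφ' hsn hnat hAt hAll hI ha hAct
    hG
  have hq := Bx.u0
  have heq : 0 < e * q := mul_pos he hq
  have hΛ1 : 1 ≤ Λ := by linarith
  have hΛq : q ≤ Λ * q := by
    have := mul_le_mul_of_nonneg_right hΛ1 hq.le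
    linarith
  have hpos := Bx.lad.pos
  obtain ⟨S', hne, hsub, N, k, p, hk1, hkn, -, hpL, hgr, hNV⟩ := hNum (P := sn 0 t + TV * q)
    (lam := sn 0 t - t + TV * q) hS hM (boxT_mono Bx (hC2.trans hΛ) le_rfl)
    (hφ'.trans (mul_le_mul_of_nonneg_right g2 hq.le))
    (affAt_le hAt (mul_le_mul_of_nonneg_right g2 hq.le)) (fun v hv h1 h2 => by
      obtain ⟨bl', pl', h3⟩ := hAll v hv h1 (by linarith)
      exact ⟨bl', pl', affAt_le h3 (mul_le_mul_of_nonneg_right g2 hq.le)⟩) hG le_rfl le_rfl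
  refine ⟨S', hne, hsub, ?_⟩
  -- the sub-box
  obtain ⟨B, hB⟩ : ∃ B : ℝ, B = (L : ℝ) ^ k := ⟨_, rfl⟩
  have hB1 : 1 ≤ B := by rw [hB]; exact one_le_pow₀ hL1
  have hB0 : 0 < B := by linarith
  have hBA : B ≤ A := by rw [hB, hA]; exact pow_le_pow_right₀ hL1 hkn
  rw [← hB] at hgr hNV
  obtain ⟨x₀, hx₀⟩ : ∃ x₀, x₀ = t + p / B * q := ⟨_, rfl⟩
  obtain ⟨ρ, hρ⟩ : ∃ ρ, ρ = q / B := ⟨_, rfl⟩
  obtain ⟨u, hu⟩ : ∃ u, u = q / (2 * B) := ⟨_, rfl⟩
  have hρ0 : 0 < ρ := by rw [hρ]; positivity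
  have hu0 : 0 < u := by rw [hu]; positivity
  have hρu : ρ / 2 = u := by rw [hρ, hu]; field_simp
  have hqB : q = B * ρ := by rw [hρ]; field_simp
  have hqA : q ≤ A * ρ := by
    rw [hqB]
    exact mul_le_mul_of_nonneg_right hBA hρ0.le
  have hqu : q ≤ 2 * A * u := by
    rw [← hρu]
    linarith
  have hρq : ρ ≤ q := by
    rw [hρ]
    exact div_le_self hq.le hB1
  simp only [← hx₀, ← hρ] at hgr hNV
  have hp0 : (0 : ℝ) ≤ p := Nat.cast_nonneg p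
  have htx₀ : t ≤ x₀ := by
    rw [hx₀]
    have : 0 ≤ (p : ℝ) / B * q := by positivity
    linarith
  have hx₁ : x₀ + L * ρ ≤ t + q := by
    have h1 : (p : ℝ) + L ≤ B := by rw [hB]; exact_mod_cast hpL
    have h2 : x₀ + L * ρ = t + (p + L) * ρ := by
      rw [hx₀, hρ]
      ring
    have h3 : ((p : ℝ) + L) * ρ ≤ B * ρ := mul_le_mul_of_nonneg_right h1 hρ0.le
    rw [h2]
    linarith
  -- the inputs in the subclass
  have hAt' := affAt_sub hsub hAt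
  have hAll' : ∀ v ∈ G, t ≤ v → v ≤ t + Λ * q →
      ∃ bl' pl' : ℕ → ℝ, AffAt S' c sn v (e * q) bl' pl' := fun v hv h1 h2 => by
    obtain ⟨bl', pl', h3⟩ := hAll v hv h1 h2
    exact ⟨bl', pl', affAt_sub hsub h3⟩
  have hBx' := boxT_sub hsub Bx
  have hpos' : ∀ (τ : ℝ) (J : ℕ) (F : Fam 4 J) (A : F.Ω → Prop), S'.St τ J F A → 0 < Pe F.p A :=
    fun τ J F A h => hpos τ J F A (hsub τ J F A h)
  have hgq : e * q ≤ eC * q := mul_le_mul_of_nonneg_right g1 hq.le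
  have hΛCq : ΛC * q ≤ Λ * q := mul_le_mul_of_nonneg_right (hC1.trans hΛ) hq.le
  have hdis := hC (a := a) (σ := σ₁ * q) hne hpos' (boxT_mono hBx' (hC1.trans hΛ) g1)
    (hφ'.trans hgq) (mul_pos hσ₁0 hq) (mul_le_mul_of_nonneg_right hσ₁C hq.le)
    (fun v hv h1 h2 => (hsn v hv h1 (by linarith)).trans hgq)
    (fun l hl => by linarith [hnat l hl]) (affAt_le hAt' hgq)
    (fun v hv h1 h2 => by
      obtain ⟨bl', pl', h3⟩ := hAll' v hv h1 (by linarith)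
      exact ⟨bl', pl', affAt_le h3 hgq⟩) (fun v hv h1 h2 => imn_sub hsub (hI v hv h1 h2)) ha
    (fun P Q h1 h2 h3 => actI_sub hsub (hAct P Q h1 (by linarith) (by linarith))) hgr htx₀ hρ0 hx₁
    hqA hNV
  -- one pair
  have key : ∀ i j : ℕ, i < j → j ≤ L → 2 ≤ (s - 1) * ((j : ℝ) - i) → N i j ≤ δ' * ρ →
      ∃ k p : ℕ, 1 ≤ k ∧ k ≤ n ∧ p ≤ L ^ k ∧
        TieW S' c 1 2 D D (fun i : Fin (2 + 1) => (i : ℕ)) sn G s b (t + (p / (L : ℝ) ^ k) * q)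
          (q / (2 * (L : ℝ) ^ k)) Λ T δ (φ * (q / (2 * (L : ℝ) ^ k))) φ' D := by
    intro i j hij hj hs2 hNij
    refine ⟨k, p + i, hk1, hkn, by omega, ?_⟩
    obtain ⟨sp', Bw⟩ := hBx k (p + i) hk1 hkn (by omega)
    obtain ⟨w, hw⟩ : ∃ w, w = x₀ + i * ρ := ⟨_, rfl⟩
    have hwe : t + (((p + i : ℕ) : ℝ) / B) * q = w := by
      rw [hw, hx₀, hρ]
      push_cast
      ring
    rw [← hB, hwe, ← hu] at Bw ⊢
    have Bw' := boxT_sub hsub Bw
    have hiL : (i : ℝ) ≤ L := by exact_mod_cast (by omega : i ≤ L)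
    have hi0 : (0 : ℝ) ≤ i := Nat.cast_nonneg i
    have h1 : (i : ℝ) * ρ ≤ L * ρ := mul_le_mul_of_nonneg_right hiL hρ0.le
    have h2 : 0 ≤ (i : ℝ) * ρ := by positivity
    have hwG : w ∈ G := by rw [hw]; exact hgr i (by omega)
    have htw : t ≤ w := by linarith
    have hwq : w ≤ t + q := by linarith
    obtain ⟨bl', pl', hA'⟩ := hAll' w hwG htw (by linarith)
    have hsw := hsn w hwG htw (by linarith)
    have c1 : (TV + 1) * q ≤ T * (ρ / 2) := by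
      have d1 : (TV + 1) * q ≤ (TV + 1) * (2 * A * u) :=
        mul_le_mul_of_nonneg_left hqu (by linarith)
      have d2 : 2 * A * (TV + 1) * u ≤ T * u := mul_le_mul_of_nonneg_right hTA hu0.le
      rw [hρu]
      linarith
    have c2 : 6 * (σ₁ * q) + 4 * (e * q) ≤ ρ := by
      have d1 : 12 * A * σ₁ * ρ ≤ 1 * ρ := mul_le_mul_of_nonneg_right hσ₁A hρ0.le
      have d2 : 8 * A * e * ρ ≤ 1 * ρ := mul_le_mul_of_nonneg_right g6 hρ0.le
      have d3 : σ₁ * q ≤ σ₁ * (A * ρ) := mul_le_mul_of_nonneg_left hqA hσ₁0.le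
      have d4 : e * q ≤ e * (A * ρ) := mul_le_mul_of_nonneg_left hqA he.le
      linarith
    have c3 : 40 * (s + 1) * (e * q) ≤ σ₁ * q := by
      have := mul_le_mul_of_nonneg_right g4 hq.le
      linarith
    obtain ⟨Nf, hNf, hfar⟩ := far_num (T := T) (σ := σ₁ * q) hBx' hs (hC4.trans hΛ) heq hφ' c3
      (by
        have := mul_le_mul_of_nonneg_right hσ₁1 hq.le
        linarith) hTV2 hAt' (fun v hv h3 h4 => hAll' v hv h3 (by linarith))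
      (fun v hv h3 h4 => hsn v hv h3 (by linarith)) hgr htx₀ hρ0 hx₁ hNV hij.le hj hs2 c2 c1
      (bl' := bl') (pl' := pl') (by rw [← hw]; exact hA')
    simp only [← hw, hρu] at hNf hfar
    have hdf1 : N i j ≤ 2 * δ' * u := by
      rw [← hρu]
      linarith
    have d1 : 8 * δ' * u ≤ δ₁ * u := mul_le_mul_of_nonneg_right hδ'1 hu0.le
    have d2 : 8 * δ' * u ≤ δ * u := mul_le_mul_of_nonneg_right hδ'2 hu0.le
    have d3 : 0 < δ' * u := mul_pos hδ'0 hu0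
    have hφu : 0 < φ * u := mul_pos hφ hu0
    have c4 : 20 * (e * q) ≤ 2 * (φ * u) := by
      have f1 : e * q ≤ e * (2 * A * u) := mul_le_mul_of_nonneg_left hqu he.le
      have f2 : 20 * A * e * u ≤ φ * u := mul_le_mul_of_nonneg_right g5 hu0.le
      linarith
    have c5 : e * q ≤ eN * u := by
      have f1 : e * q ≤ e * (2 * A * u) := mul_le_mul_of_nonneg_left hqu he.le
      have f2 : 2 * A * e * u ≤ eN * u := mul_le_mul_of_nonneg_right g3 hu0.le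
      linarith
    have c6 : 160 * (φ * u) ≤ u := by
      have := mul_le_mul_of_nonneg_right hφ1 hu0.le
      linarith
    have c7 : 2 * u ≤ q := by linarith
    have hwu : ΛN * u ≤ Λ * u := mul_le_mul_of_nonneg_right (hC3.trans hΛ) hu0.le
    have c8 : Λ * u ≤ Λ * q / 2 := by
      have := mul_le_mul_of_nonneg_left c7 (show 0 ≤ Λ by linarith)
      linarith
    have hsw' := abs_le.1 hsw
    -- the near bound
    obtain ⟨w₁, hw₁, hw₁'⟩ := exists_rat_btwn (show w < w + φ * u by linarith)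
    have e1 : (1 + 2 * φ) * u = u + 2 * (φ * u) := by ring
    have hnear := hN1 (a := a) (df := N i j) (bl := bl') (pl := pl') (Nf := Nf)
      (Nn := fun l => sn (1 + l) w - w + (1 + 2 * φ) * u) hne hpos'
      (boxT_mono Bw' (hC3.trans hΛ) (by
        have : e ≤ 2 * A * e := le_mul_of_one_le_left he.le (by linarith)
        linarith)) (hφ'.trans c5)
      (fun l hl => affAt_le hA' c5 l (by omega)) (fun v hv h3 h4 => by
        obtain ⟨bl₂, pl₂, h5⟩ := hAll' v hv (htw.trans h3) (by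
          have : 2 * q ≤ Λ * q := mul_le_mul_of_nonneg_right (by linarith) hq.le
          linarith)
        exact ⟨bl₂, pl₂, fun l hl => affAt_le h5 c5 l (by omega)⟩) ha
      (fun P Q h3 h4 h5 => actI_sub hsub (hAct P Q (by linarith) (by linarith) (by
        have : 2 * q ≤ Λ * q := mul_le_mul_of_nonneg_right (by linarith) hq.le
        linarith))) (by linarith) (fun l hl => by
        have := hNf l (by omega)
        rw [e1]
        linarith) hfar (fun l hl => le_rfl) w₁ (sn 0 w + (1 + 8 * φ) * u)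
      (sn 0 w - w + (1 + 8 * φ) * u) hw₁.le hw₁'.le le_rfl le_rfl
    have c9 : N i j < δ * u := by linarith
    have c10 : δ / 2 * u < δ * u := by
      have : 0 < δ * u := mul_pos hδ hu0
      linarith
    have c11 : 4 ≤ Λ := by linarith
    have c12 : 4 * φ' ≤ φ * u := by linarith
    have c13 : 10 * (e * q) ≤ φ * u := by linarith
    intro Dr N' M' C₀ a' Eb' ηm ow η σ lv bb fb fn nb n' ks hDr Wn
    exact tie_one hs Bw' hD c11 hφ hφ1 hφ2 c12 c13 hsw hA' hT4 hNf c9 hfar hw₁.le hw₁'.le c10 hnear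
      hDr Wn
  rcases hdis with h | h
  · exact key i₁ j₁ hij₁ hj₁ hs₁ h
  · exact key i₂ j₂ hij₂ hj₂ hs₂ h

end Pool.T4T72
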