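import Pool.Agent.H72.T4T.S
import Pool.Agent.H62.T4.Num4g
import Pool.Agent.H63.T4.Tr

/-!
# The far bound over the labels of a window of the grid

`cvt_box`: in a box with affine labels at all windows: the bound of the velocities over the labels of
`t` is a bound over the labels of a window `y`, the digits natural at a window `x ≥ y`. `fewN_velX`:
other labels of one window, at a later record.
-/

set_option autoImplicit false

namespace Pool.T4T72

open Finset Real MvPolynomial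
open Pool.Agent.H49.Ent Pool.Agent.H32.Dense Pool.STK Pool.KA Pool.KSAT Pool.K2S Pool.PB Pool.S6C
open Pool.GEN Pool.RCD Pool.LA91 Pool.OWN83 Pool.FVL91
open Pool.GRD (LbP)
open Pool.CDX (AffL)
open Pool.V0T (LadT)
open Pool.T4C72 (BoxT)
open Pool.PRC54 (yQ)
open Pool.T462 (FewN BxA)
open Pool.T4D63 (few_velR few_grid exs_velA fewN_tr fewN_velR fewN_y)
open Pool.T4N (AffAt dgV NumV)

variable {m : ℕ} {S : PCl m} {c : ℕ → Fin m} {f : ℕ} {sn : ℕ → ℝ → ℝ} {G : Set ℝ}
  {b o s t q φ κ σ σ₀ P lam : ℝ} {bl pl : ℕ → ℝ}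

/-- **`FewN` over other affine labels** of a window, at a later record. -/
theorem fewN_velX (L : LadT S c 1 f sn G b o φ) {v : ℝ} (hv : v ∈ G) {n : ℕ} (hn : n ≤ f + 1)
    {lv θ δ x : ℝ} (hvx : v ≤ x) (hx1 : x ≤ 1) {wt pt Nt wt' pt' Nt' : ℕ → ℝ}
    (hwt : ∀ l < n, wt l ≤ v) (hwt' : ∀ l < n, wt' l ≤ v) (hσ₀ : 0 < σ₀) (hθ : 0 ≤ θ)
    (hpt : ∀ l < n, sn (1 + l) v ≤ pt l + θ) (hlv : 0 < lv) (hP : sn 0 v + lv + σ₀ ≤ P)
    (hl : sn 0 v - v + lv + σ₀ ≤ lam) (hr : lv + σ₀ ≤ 1 - v) (hN : ∀ l < n, Nt' l ≤ Nt l)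
    (h3 : ∀ l < n, Nt' l + v + l * θ + σ₀ ≤ min (pt l) (pt' l) + lv)
    (h4 : ∀ l < n, ∀ i < l,
      Nt' l + sn (1 + i) v + l * θ + σ₀ ≤ min (pt l) (pt' l) + Nt i)
    (hA : ∀ l < n, AffL S ((range (1 + l)).image c) (c (1 + l)) (wt l) (pt l))
    (H : FewN S (fun J F => ptr F J) (vg x) (yQ ((range 1).image c) P lam)
      (qVel m c 1 n 1 wt pt Nt) δ) :
    FewN S (fun J F => ptr F J) (vg x) (yQ ((range 1).image c) P lam)
      (qVel m c 1 n 1 wt' pt' Nt') δ := by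
  obtain ⟨u₁, rd, -, hch⟩ := L.ch.ch v hv
  exact fewN_tr L.pos H (Few.late L.pos hvx hx1
    (few_velR L hv hn hwt hwt' hσ₀ hθ hpt hlv hP hl hr hN h3 h4))
    (exs_velA (fun l hl => (hwt l hl).trans hch.u0.le) hA)

/-- **The bound over the labels of the window** `y`. -/
theorem cvt_box (B : BxA S c f sn G b o s t q φ κ σ σ₀ P lam bl pl) {x y : ℝ} (hx : x ∈ G)
    (hy : y ∈ G) (hty : t ≤ y) (hyx : y ≤ x) (hxq : x ≤ t + q) {bl' pl' : ℕ → ℝ}
    (hla : ∀ l ≤ f, bl' l ≤ y ∧ sn (1 + l) y - κ ≤ pl' l ∧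
      AffL S ((range (1 + l)).image c) (c (1 + l)) (bl' l) (pl' l)) {δ : ℝ}
    (H : FewN S (fun J F => ptr F J) (vg y) (yQ ((range 1).image c) P lam)
      (qVel m c 1 (f + 1) 1 bl pl (dgV sn σ x)) δ) :
    FewN S (fun J F => ptr F J) (vg y) (yQ ((range 1).image c) P lam)
      (qVel m c 1 (f + 1) 1 bl' pl' (dgV sn σ x)) δ := by
  classical
  have hpos := B.L.pos
  have hφ : 0 < φ := B.L.φ0
  have hs := B.s0
  have hκ := B.κ0
  have hσ₀ := B.σ₀0
  have hq := B.q0
  have hf0 : (0 : ℝ) ≤ f := Nat.cast_nonneg f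
  obtain ⟨θ, hθ⟩ : ∃ θ : ℝ, θ = κ + 3 * s * φ + 2 * φ := ⟨_, rfl⟩
  have hsφ : 0 ≤ 3 * s * φ := by positivity
  have hθ0 : 0 ≤ θ := by rw [hθ]; positivity
  have hσ1 := B.σ1
  rw [← hθ] at hσ1
  have hfθ : 0 ≤ f * θ := by positivity
  have e3 : ((f : ℝ) + 1) * θ = f * θ + θ := by ring
  have hσ : 0 ≤ σ := by linarith
  have hκθ : κ ≤ θ := by rw [hθ]; linarith
  have htx : t ≤ x := hty.trans hyx
  have hyq : y ≤ t + q := hyx.trans hxq
  have hy1 : y < 1 := by
    obtain ⟨u₁, rd, -, hch⟩ := B.L.ch.ch y hy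
    exact hch.u0
  obtain ⟨ρ₀, hρ₀, hρφ, hgap, -⟩ := B.L.fm
  obtain ⟨R, z', hz0, hzR, hzG, hzs⟩ := gseq (G := G) (w := t) (h := 3 * φ) (ρ₀ := ρ₀) B.tG
    (by linarith) ⌈(y - t) / (3 * φ - 2 * ρ₀)⌉₊ y hy hty (by
      have h1 : 0 < 3 * φ - 2 * ρ₀ := by linarith
      have h2 := Nat.le_ceil ((y - t) / (3 * φ - 2 * ρ₀))
      rwa [div_le_iff₀ h1] at h2) (fun v h1 h2 => hgap v (B.bt.trans h1)
      ((h2.trans hyq).trans B.tqo))
  -- the labels of the sequence
  have hlab : ∀ r : ℕ, ∃ bp : (ℕ → ℝ) × (ℕ → ℝ), (r ≤ R → ∀ l ≤ f, bp.1 l ≤ z' (R - r) ∧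
      sn (1 + l) (z' (R - r)) - κ ≤ bp.2 l ∧
      AffL S ((range (1 + l)).image c) (c (1 + l)) (bp.1 l) (bp.2 l)) ∧
      (r = 0 → bp = (bl, pl)) := by
    intro r
    by_cases h0 : r = 0
    · refine ⟨(bl, pl), fun _ l hl => ?_, fun _ => rfl⟩
      rw [h0, Nat.sub_zero, hzR]
      exact B.la l hl
    · by_cases hr : r ≤ R
      · obtain ⟨h1, h2, h3⟩ := hzG (R - r) (Nat.sub_le _ _)
        obtain ⟨bl', pl', h4⟩ := B.lv _ h1 h2 (h3.trans hyq)
        exact ⟨(bl', pl'), fun _ => h4, fun h => absurd h h0⟩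
      · exact ⟨(bl, pl), fun h => absurd h hr, fun _ => rfl⟩
  choose bp hbp hbp0 using hlab
  have hlin : ∀ l ≤ f, ∀ r ≤ R, |sn (1 + l) (z' r) - sn (1 + l) t - s * (z' r - t)| ≤ φ := by
    intro l hl r hr
    obtain ⟨h1, h2, h3⟩ := hzG r hr
    exact B.lin l hl _ h1 h2 (h3.trans hyq)
  have hlx : ∀ l ≤ f, |sn (1 + l) x - sn (1 + l) t - s * (x - t)| ≤ φ := fun l hl =>
    B.lin l hl x hx htx hxq
  have hly : ∀ l ≤ f, |sn (1 + l) y - sn (1 + l) t - s * (y - t)| ≤ φ := fun l hl =>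
    B.lin l hl y hy hty hyq
  have hsxq : s * (x - t) ≤ s * q := mul_le_mul_of_nonneg_left (by linarith) hs
  have hsyt : 0 ≤ s * (y - t) := mul_nonneg hs (by linarith)
  have hsq : 0 ≤ s * q := by positivity
  -- the labels of `y` of the sequence
  have H1 : FewN S (fun J F => ptr F J) (vg y) (yQ ((range 1).image c) P lam)
      (qVel m c 1 (f + 1) 1 (bp R).1 (bp R).2 (dgV sn σ x)) δ := by
    rcases Nat.eq_zero_or_pos R with hR | hR
    · rw [hR, hbp0 0 rfl]
      exact H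
    have hex : Exs S (qVel m c 1 (f + 1) 1 bl pl (dgV sn σ x)) :=
      exs_velA (fun l hl => by linarith [(B.la l (by omega)).1]) fun l hl =>
        (B.la l (by omega)).2.2
    have key := few_grid B.L (n := f + 1) le_rfl (R := R) (z := fun r => z' (R - r))
      (fun r _ => (hzG (R - r) (Nat.sub_le _ _)).1) (fun r hr => by
        have h1 := (hzs (R - (r + 1)) (by omega)).1
        rwa [show R - (r + 1) + 1 = R - r by omega] at h1) (x := y) (by
        show z' (R - R) ≤ y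
        rw [Nat.sub_self, hz0]) hy1.le (P := P) (lam := lam) (lv := s * q + σ) (σ₀ := σ₀) (θ := θ)
      (bl := fun r => (bp r).1) (pl := fun r => (bp r).2) (N := dgV sn σ x) hσ₀ hθ0 ?_
      (fun r hr l hl => ⟨(hbp r hr l (by omega)).1, (hbp r hr l (by omega)).2.2⟩) ?_ ?_ ?_ ?_ ?_ ?_
      hR
    · have h1 := key.1
      simp only [hbp0 0 rfl] at h1
      exact fewN_tr hpos H h1 hex
    all_goals try (intro r hr)
    · linarith
    · intro l hl
      have h1 := (hbp r hr.le l (by omega)).2.1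
      have h2 := (hbp (r + 1) hr l (by omega)).2.1
      have h3 := abs_le.1 (hlin l (by omega) (R - r) (Nat.sub_le _ _))
      have h4 := abs_le.1 (hlin l (by omega) (R - (r + 1)) (Nat.sub_le _ _))
      have h5 := (hzs (R - (r + 1)) (by omega)).2
      rw [show R - (r + 1) + 1 = R - r by omega] at h5
      have h6 : s * (z' (R - (r + 1)) - z' (R - r)) ≤ s * (3 * φ) :=
        mul_le_mul_of_nonneg_left (by linarith) hs
      show sn (1 + l) (z' (R - (r + 1))) ≤ min ((bp r).2 l) ((bp (r + 1)).2 l) + θ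
      rw [← sub_le_iff_le_add]
      refine le_min ?_ ?_
      · rw [hθ]
        nlinarith [h3.1, h4.2]
      · rw [hθ]
        linarith
    · obtain ⟨h1, h2, h3⟩ := hzG (R - (r + 1)) (Nat.sub_le _ _)
      have h4 := B.sn0 h1 h2 (h3.trans hyq)
      have h5 := B.P1
      show sn 0 (z' (R - (r + 1))) + (s * q + σ) + σ₀ ≤ P
      linarith
    · obtain ⟨h1, h2, h3⟩ := hzG (R - (r + 1)) (Nat.sub_le _ _)
      have h4 := B.sn0 h1 h2 (h3.trans hyq)
      have h5 := B.l1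
      show sn 0 (z' (R - (r + 1))) - z' (R - (r + 1)) + (s * q + σ) + σ₀ ≤ lam
      linarith
    · obtain ⟨h1, h2, h3⟩ := hzG (R - (r + 1)) (Nat.sub_le _ _)
      have h5 := B.o1
      show (s * q + σ) + σ₀ ≤ 1 - z' (R - (r + 1))
      linarith
    · intro l hl
      obtain ⟨h1, h2, h3⟩ := hzG (R - (r + 1)) (Nat.sub_le _ _)
      obtain ⟨g1, g2, g3⟩ := hzG (R - r) (Nat.sub_le _ _)
      have a1 := (hbp r hr.le l (by omega)).2.1
      have a2 := (hbp (r + 1) hr l (by omega)).2.1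
      have a3 := abs_le.1 (hlin l (by omega) (R - r) (Nat.sub_le _ _))
      have a4 := abs_le.1 (hlin l (by omega) (R - (r + 1)) (Nat.sub_le _ _))
      have a5 := abs_le.1 (hlx l (by omega))
      have a7 : 0 ≤ s * (z' (R - r) - t) := mul_nonneg hs (by linarith)
      have a8 : 0 ≤ s * (z' (R - (r + 1)) - t) := mul_nonneg hs (by linarith)
      have hl0 : (l : ℝ) ≤ f := by exact_mod_cast (by omega : l ≤ f)
      have a9 : (l : ℝ) * θ ≤ f * θ := mul_le_mul_of_nonneg_right hl0 hθ0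
      have b1 : 0 ≤ ((l : ℝ) + 1) * σ := by positivity
      have hmin : sn (1 + l) t - φ - κ ≤ min ((bp r).2 l) ((bp (r + 1)).2 l) := by
        refine le_min ?_ ?_
        · linarith [a3.1]
        · linarith [a4.1]
      show dgV sn σ x l + z' (R - (r + 1)) + l * θ + σ₀ ≤
        min ((bp r).2 l) ((bp (r + 1)).2 l) + (s * q + σ)
      unfold dgV
      linarith [a5.2]
    · intro l hl i hi
      obtain ⟨h1, h2, h3⟩ := hzG (R - (r + 1)) (Nat.sub_le _ _)
      obtain ⟨g1, g2, g3⟩ := hzG (R - r) (Nat.sub_le _ _)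
      have a1 := (hbp r hr.le l (by omega)).2.1
      have a2 := (hbp (r + 1) hr l (by omega)).2.1
      have a3 := abs_le.1 (hlin l (by omega) (R - r) (Nat.sub_le _ _))
      have a4 := abs_le.1 (hlin l (by omega) (R - (r + 1)) (Nat.sub_le _ _))
      have a5 := abs_le.1 (hlx l (by omega))
      have c4 := abs_le.1 (hlin i (by omega) (R - (r + 1)) (Nat.sub_le _ _))
      have c5 := abs_le.1 (hlx i (by omega))
      have h5 := (hzs (R - (r + 1)) (by omega)).2
      rw [show R - (r + 1) + 1 = R - r by omega] at h5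
      have h5' := (hzs (R - (r + 1)) (by omega)).1
      rw [show R - (r + 1) + 1 = R - r by omega] at h5'
      have h6 : s * (z' (R - (r + 1)) - z' (R - r)) ≤ s * (3 * φ) :=
        mul_le_mul_of_nonneg_left (by linarith) hs
      have h7 : 0 ≤ s * (z' (R - (r + 1)) - z' (R - r)) := mul_nonneg hs (by linarith)
      have hl0 : (l : ℝ) ≤ f := by exact_mod_cast (by omega : l ≤ f)
      have a9 : (l : ℝ) * θ ≤ f * θ := mul_le_mul_of_nonneg_right hl0 hθ0
      have hl1 : (i : ℝ) + 1 ≤ l := by exact_mod_cast hi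
      have b1 : σ ≤ (l - i) * σ := le_mul_of_one_le_left hσ (by linarith)
      have b2 : ((l : ℝ) - i) * σ = (l + 1) * σ - (i + 1) * σ := by ring
      rw [b2] at b1
      have b3 : θ = κ + 3 * s * φ + 2 * φ := hθ
      have b4 : s * (z' (R - (r + 1)) - z' (R - r)) =
        s * (z' (R - (r + 1)) - t) - s * (z' (R - r) - t) := by ring
      have hmin : sn (1 + l) (z' (R - (r + 1))) - θ ≤
          min ((bp r).2 l) ((bp (r + 1)).2 l) := by
        refine le_min ?_ ?_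
        · linarith [a3.1, a4.2]
        · linarith
      show dgV sn σ x l + sn (1 + i) (z' (R - (r + 1))) + l * θ + σ₀ ≤
        min ((bp r).2 l) ((bp (r + 1)).2 l) + dgV sn σ x i
      unfold dgV
      linarith [a5.2, a4.1, c4.2, c5.1]
  -- to the given labels
  have hy2 : ∀ l ≤ f, (bp R).1 l ≤ y ∧ sn (1 + l) y - κ ≤ (bp R).2 l := fun l hl => by
    have h1 := hbp R le_rfl l hl
    rw [Nat.sub_self, hz0] at h1
    exact ⟨h1.1, h1.2.1⟩
  have hmin : ∀ l ≤ f, sn (1 + l) y - κ ≤ min ((bp R).2 l) (pl' l) := fun l hl =>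
    le_min (hy2 l hl).2 (hla l hl).2.1
  have h0 := B.sn0 hy hty hyq
  have hP := B.P1
  have hl := B.l1
  have ho := B.o1
  refine fewN_velR B.L hy (n := f + 1) le_rfl (lv := s * q + σ) (σ₀ := σ₀) (θ := θ)
    (fun l hl => (hy2 l (by omega)).1) (fun l hl => (hla l (by omega)).1) hσ₀ hθ0
    (fun l hl => by linarith [(hy2 l (by omega)).2]) (by linarith) (by linarith) (by linarith)
    (by linarith) (fun _ _ => le_rfl) (fun l hl => ?_) (fun l hl i hi => ?_)
    (fun l hl => (hbp R le_rfl l (by omega)).2.2) H1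
  · have a5 := abs_le.1 (hlx l (by omega))
    have a6 := abs_le.1 (hly l (by omega))
    have hl0 : (l : ℝ) ≤ f := by exact_mod_cast (by omega : l ≤ f)
    have a9 : (l : ℝ) * θ ≤ f * θ := mul_le_mul_of_nonneg_right hl0 hθ0
    have b1 : 0 ≤ ((l : ℝ) + 1) * σ := by positivity
    have b2 := hmin l (by omega)
    unfold dgV
    linarith [a5.2, a6.1]
  · have a5 := abs_le.1 (hlx l (by omega))
    have a6 := abs_le.1 (hly l (by omega))
    have c5 := abs_le.1 (hlx i (by omega))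
    have c6 := abs_le.1 (hly i (by omega))
    have hl0 : (l : ℝ) ≤ f := by exact_mod_cast (by omega : l ≤ f)
    have a9 : (l : ℝ) * θ ≤ f * θ := mul_le_mul_of_nonneg_right hl0 hθ0
    have hl1 : (i : ℝ) + 1 ≤ l := by exact_mod_cast hi
    have b1 : σ ≤ (l - i) * σ := le_mul_of_one_le_left hσ (by linarith)
    have b2 : ((l : ℝ) - i) * σ = (l + 1) * σ - (i + 1) * σ := by ring
    rw [b2] at b1
    have b3 := hmin l (by omega)
    unfold dgV
    linarith [a5.2, a6.1, c5.1, c6.2]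

end Pool.T4T72
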