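import Pool.Agent.H72.T4T.Tie
import Pool.Agent.H72.T4C.Cons2

/-!
# One contact coordinate, the target with the slope of the tie

`pOne_t4`: the parts at one contact coordinate from the dichotomy, the affine labels of the place
three and the images.
-/

set_option autoImplicit false

namespace Pool.T4T72

open Pool.GEN Pool.PKG Pool.LA91
open Pool.T4C72 (SlEq pOne_tie')
open Pool.T4N (T4ClsStmt)
open Pool.ASM (POne)

/-- **The images**, for some property of the windows. -/
def ImgEx : Prop := ∀ h : ℝ, 0 < h → h ≤ 1 → ∃ (ι : Type) (_ : Countable ι) (Q : PropG 4 ι),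
  HerQ Q ∧ ((∀ k, 1 ≤ k → k < 4 → FZX k) → AePG 4 Q) ∧
    ∀ (κ : ℕ → Kg) (Sl : ℕ → ℝ), SlEq Sl → ImgStmt h Sl κ Q

/-- **One contact coordinate**, the target with the slope of the tie. -/
theorem pOne_t4 (hC : T4ClsStmt) (hN : NafNear 4) (hI : ImgEx) : POne fun a b => a = b :=
  pOne_tie' fun κ _ _ => tieEx_of hC hN hI κ

end Pool.T4T72
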