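import Pool.Agent.H72.T4T.Fin
import Pool.Agent.H43.T4.Imc

/-!
# The images of the heights from a record, ingredients

`FzQ`: the statements of the lower dimensions as a property of the windows. `recG_act`: the constants
of the activity.
-/

set_option autoImplicit false

namespace Pool.T4T72

open Finset Real MvPolynomial
open Pool.Agent.H49.Ent Pool.Agent.H32.Dense Pool.STK Pool.KA Pool.KSAT Pool.K2S Pool.PB Pool.S6C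
open Pool.GEN Pool.RCD Pool.LA91 Pool.PKG Pool.V0F Pool.REX83

/-- **The statements of the lower dimensions**, as a property of the windows. -/
def FzQ {n : ℕ} (_ : Unit) (_ : ℕ) (_ : PCl n) (_ : List (Fin n) × Fin n → ℝ → ℝ → ℝ) (_ : ℝ)
    (_ : ℕ → Fin n) (_ : ℝ → ℝ → ℝ) (_ : ℝ → ℝ) (_ _ : ℕ → ℝ → ℝ → ℝ) (_ : ℕ → Kg)
    (_ : Set ℝ) (_ : ℝ) : Prop := ∀ k, 1 ≤ k → k < n → FZX k

theorem her_fz (n : ℕ) : HerQ (FzQ : PropG n Unit) := fun _ _ _ _ _ _ _ _ _ _ _ _ _ _ _ h => h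

theorem aePG_fz {n : ℕ} (h : ∀ k, 1 ≤ k → k < n → FZX k) : AePG n (FzQ : PropG n Unit) := by
  intro hn S P r P' Λ PB PQ H hTop hF o G hG hGs
  exact ⟨S, H.toPk.ne, fun _ _ _ _ h => h, Filter.Eventually.of_forall fun g _ κ _ p => ⟨0, h⟩⟩

section

variable {m : ℕ} {S : PCl m} {al : ℝ} {g₀ : ℝ → ℝ} {P : List (Fin m) × Fin m → ℝ → ℝ → ℝ}
  {θ : ℝ} {P₂ : ℕ → List (Fin m) × Fin m → ℝ → ℝ → ℝ} {θ₂ Eb e₂ : ℕ → ℝ}
  {c : ℕ → Fin m} {Pt : ℝ → ℝ → ℝ} {r : ℝ → ℝ} {h K₀ g : ℝ} {L T : ℕ → ℝ → ℝ → ℝ}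
  {Sl : ℕ → ℝ} {κ : ℕ → Kg} {G : Set ℝ} {S₀ N : ℕ} {A V : ℕ → ℝ} {S₂ N' : ℕ} {V' : ℕ → ℝ}
  {K ε q t : ℝ}

/-- The constants of the activity of the first coordinate. -/
theorem recG_act
    (R : RecG S al g₀ P θ P₂ θ₂ Eb e₂ c Pt r h K₀ g L T Sl κ G S₀ N A V S₂ N' V' K ε q t) :
    ∃ N₀ : ℚ → ℚ → ℝ, ActM N₀ al g₀ ∧ ActB N₀ S (c 0) := by
  obtain ⟨s, d, e, K₁, N₁, hC⟩ := R.clx
  exact ⟨N₁, hC.actm, hC.actb _ R.c0⟩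

end

end Pool.T4T72
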