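import Pool.Agent.H72.T4T.One

/-!
# The far bound from the numbers of the velocities
-/

set_option autoImplicit false

namespace Pool.T4T72

open Finset Real MvPolynomial
open Pool.Agent.H49.Ent Pool.Agent.H32.Dense Pool.STK Pool.KA Pool.KSAT Pool.K2S Pool.PB Pool.S6C
open Pool.GEN Pool.RCD Pool.LA91 Pool.OWN83 Pool.FVL91
open Pool.CDX (AffL)
open Pool.V0T (LadT)
open Pool.T4C72 (BoxT)
open Pool.PRC54 (yQ)
open Pool.T462 (FewN BxA nn_fewN)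
open Pool.T4D63 (fewN_y)
open Pool.T4N (AffAt dgV NumV)

variable {m : ℕ} {S : PCl m} {c : ℕ → Fin m} {sn sp : ℕ → ℝ → ℝ} {G : Set ℝ} {D : ℕ}
  {s hr b o t q Λ φ' e : ℝ} {lam : ℝ → ℝ} {bl pl : ℕ → ℝ}

/-- The data of the box, from `BoxT`. -/
theorem bxA_of {e₁ σ T : ℝ} (Bx : BoxT S c 1 2 D sn sp G s hr b o t q Λ φ' e lam) (hs : 1 < s)
    (hΛ : s + 4 ≤ Λ) (he₁ : 0 < e₁) (hφ : φ' ≤ e₁) (hσ : 40 * (s + 1) * e₁ ≤ σ) (hσq : σ ≤ q)
    (hT : s + 3 ≤ T) (hA : AffAt S c sn t e₁ bl pl)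
    (hAll : ∀ v ∈ G, t ≤ v → v ≤ t + q → ∃ bl' pl' : ℕ → ℝ, AffAt S c sn v e₁ bl' pl') :
    BxA S c 2 sn G b o s t q φ' e₁ σ e₁ (sn 0 t + T * q) (sn 0 t - t + T * q) bl pl := by
  have hq := Bx.u0
  have hφ0 := Bx.lad.φ0
  have a1 := Bx.bw
  have a2 := Bx.wo
  have a3 := Bx.o1
  have hΛ' := mul_le_mul_of_nonneg_right hΛ hq.le
  have hΛq : (s + 4) * q = s * q + 4 * q := by ring
  have hsq : 0 < s * q := by positivity
  rw [hΛq] at hΛ'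
  have b1 : 40 * (s + 1) * e₁ = 40 * (s * e₁) + 40 * e₁ := by ring
  have b2 : 0 < s * e₁ := by positivity
  have b4 : s * φ' ≤ s * e₁ := mul_le_mul_of_nonneg_left hφ (by linarith)
  have b5 : (s + 3) * q ≤ T * q := mul_le_mul_of_nonneg_right hT hq.le
  exact {
    L := Bx.lad
    tG := Bx.wG
    bt := by linarith
    q0 := hq
    tqo := by linarith
    s0 := by linarith
    κ0 := he₁.le
    σ₀0 := he₁
    lin := fun l hl v hv h1 h2 => Bx.lin (1 + l) (by omega) (by omega) v hv (by linarith)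
      (by linarith)
    σ1 := by
      push_cast
      linarith
    P1 := by linarith
    l1 := by linarith
    o1 := by linarith
    la := fun l hl => hA l (by omega)
    lv := fun v hv h1 h2 => by
      obtain ⟨bl', pl', h3⟩ := hAll v hv h1 h2
      exact ⟨bl', pl', fun l hl => h3 l (by omega)⟩ }

/-- **The far bound** over the labels of the window `x i`. -/
theorem far_num {e₁ σ TV T C κ x₀ ρ : ℝ} {N : ℕ → ℕ → ℝ} {L i j : ℕ}
    (Bx : BoxT S c 1 2 D sn sp G s hr b o t q Λ φ' e lam) (hs : 1 < s) (hΛ : s + 4 ≤ Λ)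
    (he₁ : 0 < e₁) (hφ : φ' ≤ e₁) (hσ : 40 * (s + 1) * e₁ ≤ σ) (hσq : σ ≤ q) (hT : s + 3 ≤ TV)
    (hA : AffAt S c sn t e₁ bl pl)
    (hAll : ∀ v ∈ G, t ≤ v → v ≤ t + q → ∃ bl' pl' : ℕ → ℝ, AffAt S c sn v e₁ bl' pl')
    (hsn : ∀ v ∈ G, t ≤ v → v ≤ t + q → |sn 0 v - v| ≤ e₁)
    (hG : ∀ i ≤ L, x₀ + i * ρ ∈ G) (hx₀ : t ≤ x₀) (hρ : 0 < ρ) (hx₁ : x₀ + L * ρ ≤ t + q)
    (hN : NumV S c sn bl pl (sn 0 t + TV * q) (sn 0 t - t + TV * q) σ C κ L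
      (fun i => x₀ + i * ρ) N)
    (hij : i ≤ j) (hj : j ≤ L) (hs2 : 2 ≤ (s - 1) * ((j : ℝ) - i)) (hσρ : 6 * σ + 4 * e₁ ≤ ρ)
    (hTT : (TV + 1) * q ≤ T * (ρ / 2)) {bl' pl' : ℕ → ℝ}
    (hA' : AffAt S c sn (x₀ + i * ρ) e₁ bl' pl') :
    ∃ Nf : ℕ → ℝ, (∀ l < 3, sn (1 + l) (x₀ + i * ρ) - (x₀ + i * ρ) + 3 * (ρ / 2) ≤ Nf l) ∧
      FewN S (fun J F => ptr F J) (vg (x₀ + i * ρ)) (yQ ((range 1).image c)
        (sn 0 (x₀ + i * ρ) + T * (ρ / 2)) (sn 0 (x₀ + i * ρ) - (x₀ + i * ρ) + T * (ρ / 2)))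
        (qVel m c 1 3 1 bl' pl' Nf) (N i j) := by
  have B := bxA_of Bx hs hΛ he₁ hφ hσ hσq hT hA hAll
  have hpos := Bx.lad.pos
  have hq := Bx.u0
  have hij' : (i : ℝ) ≤ j := by exact_mod_cast hij
  have hjL : (j : ℝ) ≤ L := by exact_mod_cast hj
  have hi0 : (0 : ℝ) ≤ i := Nat.cast_nonneg i
  obtain ⟨y, hy⟩ : ∃ y, y = x₀ + i * ρ := ⟨_, rfl⟩
  obtain ⟨x, hx⟩ : ∃ x, x = x₀ + j * ρ := ⟨_, rfl⟩
  have h1 : (i : ℝ) * ρ ≤ j * ρ := mul_le_mul_of_nonneg_right hij' hρ.le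
  have h2 : (j : ℝ) * ρ ≤ L * ρ := mul_le_mul_of_nonneg_right hjL hρ.le
  have h3 : 0 ≤ (i : ℝ) * ρ := by positivity
  have hyG : y ∈ G := by rw [hy]; exact hG i (hij.trans hj)
  have hxG : x ∈ G := by rw [hx]; exact hG j hj
  have hty : t ≤ y := by linarith
  have hyx : y ≤ x := by linarith
  have hxq : x ≤ t + q := by linarith
  obtain ⟨η, hη⟩ := hN.rn i (hij.trans hj)
  have H := nn_fewN hpos (hN.ev i j hij hj) hη
  simp only [← hy, ← hx] at H hA' ⊢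
  have H2 := cvt_box B hxG hyG hty hyx hxq (fun l hl => hA' l (by omega)) H
  have n1 := abs_le.1 (hsn y hyG hty (hyx.trans hxq))
  have n0 := abs_le.1 (hsn t Bx.wG le_rfl (by linarith))
  have he : 2 * e₁ ≤ q := by
    have b1 : 40 * (s + 1) * e₁ = 40 * (s * e₁) + 40 * e₁ := by ring
    have b2 : 0 < s * e₁ := mul_pos (by linarith) he₁
    linarith
  refine ⟨dgV sn σ x, fun l hl => ?_, fewN_y hpos ?_ ?_ H2⟩
  · have a1 := abs_le.1 (B.lin l (by omega) x hxG (hty.trans hyx) hxq)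
    have a2 := abs_le.1 (B.lin l (by omega) y hyG hty (hyx.trans hxq))
    have hl2 : (l : ℝ) ≤ 2 := by exact_mod_cast (by omega : l ≤ 2)
    have hσ0 : 0 ≤ σ := by
      have : 0 ≤ 40 * (s + 1) * e₁ := by positivity
      linarith
    have a3 : ((l : ℝ) + 1) * σ ≤ 3 * σ := mul_le_mul_of_nonneg_right (by linarith) hσ0
    have a4 : 2 * ρ ≤ (s - 1) * ((j : ℝ) - i) * ρ := mul_le_mul_of_nonneg_right hs2 hρ.le
    have e1 : (s - 1) * ((j : ℝ) - i) * ρ = s * (x - t) - s * (y - t) - (x - y) := by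
      rw [hx, hy]
      ring
    unfold dgV
    linarith [a1.1, a2.2]
  · linarith [n0.2, n1.1]
  · linarith [n0.2, n1.1]

end Pool.T4T72
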