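import Pool.Agent.H72.T4T.Far

/-!
# The tie in one window from the far and the near bound
-/

set_option autoImplicit false

namespace Pool.T4T72

open Finset Real MvPolynomial
open Pool.Agent.H49.Ent Pool.Agent.H32.Dense Pool.STK Pool.KA Pool.KSAT Pool.K2S Pool.PB Pool.S6C
open Pool.GEN Pool.RCD Pool.LA91 Pool.OWN83 Pool.FVL91
open Pool.CDX (AffL)
open Pool.V0T (LadT)
open Pool.T4C72 (BoxT TieW)
open Pool.PRC54 (yQ)
open Pool.T462 (FewN)
open Pool.T4D63 (tieIn_of1)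
open Pool.T4N (AffAt dgV NumV)

/-- **The tie in one window** from the far and the near bound over affine labels of the window. -/
theorem tie_one {S : PCl 4} {c : ℕ → Fin 4} {sn sp : ℕ → ℝ → ℝ} {G : Set ℝ} {D : ℕ}
    {s hr b o w u Λ φ' e T δ df dn φ e₁ w₁ : ℝ} {lam : ℝ → ℝ} {bl pl Nf : ℕ → ℝ} (hs : 1 < s)
    (Bx : BoxT S c 1 2 D sn sp G s hr b o w u Λ φ' e lam) (hD : 1 ≤ D) (hΛ : 4 ≤ Λ) (hφ : 0 < φ)
    (hφ1 : 160 * φ ≤ 1) (hφs : (63 + s) * φ ≤ s - 1) (hφ' : 4 * φ' ≤ φ * u)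
    (he₁ : 10 * e₁ ≤ φ * u) (hsn : |sn 0 w - w| ≤ e₁) (hA : AffAt S c sn w e₁ bl pl) (hT : 4 ≤ T)
    (hNf : ∀ l < 3, sn (1 + l) w - w + 3 * u ≤ Nf l) (hdf : df < δ * u)
    (hfar : FewN S (fun J F => ptr F J) (vg w) (yQ ((range 1).image c) (sn 0 w + T * u)
      (sn 0 w - w + T * u)) (qVel 4 c 1 3 1 bl pl Nf) df)
    (hw₁ : w ≤ w₁) (hw₁' : w₁ ≤ w + φ * u) (hdn : dn < δ * u)
    (hnear : FewN S (fun J F => ptr F J) (vg w₁) (yQ ((range 1).image c) (sn 0 w + (1 + 8 * φ) * u)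
      (sn 0 w - w + (1 + 8 * φ) * u)) (qVel 4 c 1 3 1 bl pl
        (fun l => sn (1 + l) w - w + (1 + 2 * φ) * u)) dn) :
    TieW S c 1 2 D D (fun i : Fin (2 + 1) => (i : ℕ)) sn G s b w u Λ T δ (φ * u) φ' D := by
  intro Dr N' M' C₀ a Eb' ηm ow η σ lv bb fb fn nb n ks hDr Wn
  have hu := Bx.u0
  have hw := Bx.wG
  have hwo := Bx.wo
  have ho1 := Bx.o1
  have hb0 := Bx.b0
  have hbw := Bx.bw
  have hφ'0 := Bx.lad.φ0
  have hφu : 0 < φ * u := mul_pos hφ hu
  have hφu1 : 160 * (φ * u) ≤ u := by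
    have := mul_le_mul_of_nonneg_right hφ1 hu.le
    linarith
  have hΛu : 4 * u ≤ Λ * u := mul_le_mul_of_nonneg_right hΛ hu.le
  have hTu : 4 * u ≤ T * u := mul_le_mul_of_nonneg_right hT hu.le
  have he₁0 : 0 ≤ e₁ := (abs_nonneg _).trans hsn
  have hsn' := abs_le.1 hsn
  have hss : (s - 1) / s ≤ 1 := by
    rw [div_le_one (by linarith)]
    linarith
  have hssu : (s - 1) / s * u ≤ 1 * u := mul_le_mul_of_nonneg_right hss hu.le
  have e0 : (1 + 8 * φ) * u = u + 8 * (φ * u) := by ring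
  have e1 : (1 + 2 * φ) * u = u + 2 * (φ * u) := by ring
  have e2 : (1 + (s - 1) / s) * u = u + (s - 1) / s * u := by ring
  have e3 : (63 + s) * (φ * u) ≤ (s - 1) * u := by
    have := mul_le_mul_of_nonneg_right hφs hu.le
    linarith
  have hlt : ∀ l : ℕ, l < 2 + 1 → (l : ℝ) * e₁ ≤ 2 * e₁ := fun l hl =>
    mul_le_mul_of_nonneg_right (by exact_mod_cast (by omega : l ≤ 2)) he₁0
  have hmin : ∀ l < 2 + 1, sn (1 + l) w - φ * u ≤ min (pl l) (sn (1 + l) w - φ * u) :=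
    fun l hl => le_min (by linarith [(hA l (by omega)).2.1]) le_rfl
  refine tieIn_of1 (f := 2) (φ := φ * u) (bl := fun l => bl (l - 1)) (pl := fun l => pl (l - 1))
    Bx Wn (fun i => by
      have := i.2
      show (i : ℕ) ≤ 2
      omega) hs (by norm_num) hφu hφ' (by push_cast; linarith) (by push_cast; linarith) hΛ hD le_rfl
    hDr (fun l h1 h2 => ?_)
    (Nf := fun l => sn (1 + l) w - w + (1 + (s - 1) / s) * u)
    (Nn := fun l => sn (1 + l) w - w + u) (fun l hl => le_rfl)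
    (Pf := sn 0 w + T * u) (lf := sn 0 w - w + T * u) ⟨by linarith, le_rfl⟩ ⟨by linarith, le_rfl⟩
    hdf ?_ (fun l hl => le_rfl) (Pn := sn 0 w + (1 + 8 * φ) * u)
    (ln := sn 0 w - w + (1 + 8 * φ) * u) ⟨by rw [e0]; linarith, by rw [e0]; linarith⟩
    ⟨by rw [e0]; linarith, by rw [e0]; linarith⟩ hdn (w₁ := w₁) (by linarith) ?_
  · obtain ⟨l, rfl⟩ : ∃ l', l = 1 + l' := ⟨l - 1, by omega⟩
    have h3 := hA l (by omega)
    simp only [Nat.add_sub_cancel_left]
    exact ⟨h3.1, by linarith [h3.2.1], h3.2.2⟩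
  · refine fewN_velX Bx.lad hw (n := 2 + 1) le_rfl (lv := 3 * u) (θ := e₁) (σ₀ := φ * u / 10) le_rfl
      (by linarith) (fun l hl => (hA l (by omega)).1) (fun _ _ => le_rfl) (by linarith) he₁0
      (fun l hl => by linarith [(hA l (by omega)).2.1]) (by linarith) (by linarith) (by linarith)
      (by linarith) (fun l hl => ?_) (fun l hl => ?_) (fun l hl i hi => ?_)
      (fun l hl => (hA l (by omega)).2.2) hfar
    · have := hNf l (by omega)
      rw [e2]
      linarith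
    · have h3 := hmin l hl
      have h4 := hlt l hl
      rw [e2]
      linarith
    · have h3 := hmin l hl
      have h4 := hlt l hl
      have h5 := hNf i (by omega)
      rw [e2]
      linarith
  · refine fewN_velX Bx.lad hw (n := 2 + 1) le_rfl (lv := (1 + 3 * φ) * u) (θ := e₁)
      (σ₀ := φ * u / 10) hw₁ (by linarith) (fun l hl => (hA l (by omega)).1) (fun _ _ => le_rfl)
      (by linarith) he₁0 (fun l hl => by linarith [(hA l (by omega)).2.1]) (by positivity)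
      (by linarith) (by linarith) (by linarith) (fun l hl => ?_) (fun l hl => ?_)
      (fun l hl i hi => ?_) (fun l hl => (hA l (by omega)).2.2) hnear
    · linarith
    · have h3 := hmin l hl
      have h4 := hlt l hl
      linarith
    · have h3 := hmin l hl
      have h4 := hlt l hl
      linarith

end Pool.T4T72
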