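import Pool.Agent.H72.T4T.Sub
import Pool.Agent.H72.T4C.Sh

/-!
# The tie of three targets over one slope-one place: the inputs of the assembly

`ImgStmt`: the images of the heights are full, from the record.
-/

set_option autoImplicit false

namespace Pool.T4T72

open Finset Real MvPolynomial
open Pool.Agent.H49.Ent Pool.Agent.H32.Dense
open Pool.STK hiding pr2
open Pool.KA Pool.KSAT Pool.K2S Pool.PB Pool.S6C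
open Pool.GEN Pool.CHT Pool.LA91 Pool.RCD Pool.V0F
open Pool.CDX (AffL)
open Pool.PRC54 (yQ)
open Pool.T462 (FewN)
open Pool.FVL91 (qVel)
open Pool.T4A95 (ActI)
open Pool.T4C72 (BoxT)
open Pool.T4N (AffAt IMN)
open Pool.PKG (Kg RecG PropG)

/-- **The images of the heights are full**, from the record and a property of the windows. The
constants: `Λ`, `e` (the room and the error of the images), `Λ'`, `e'` (of the record). -/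
def ImgStmt (h : ℝ) (Sl : ℕ → ℝ) (κ : ℕ → Kg) {ι : Type} (Q : PropG 4 ι) : Prop :=
  ∀ (D S₀ : ℕ) (K₀ Λ e : ℝ), 1 ≤ D → 1 ≤ S₀ → 0 < K₀ → 1 ≤ Λ → 0 < e →
  ∃ Λ' e' : ℝ, 1 ≤ Λ' ∧ 0 < e' ∧
  ∀ (M₀ cb co : ℕ), 1 ≤ M₀ → Λ' ≤ cb → Λ' ≤ co →
  ∀ (Sa : PCl 4) (P : List (Fin 4) × Fin 4 → ℝ → ℝ → ℝ)
    (θ : ℝ) (P₂ : ℕ → List (Fin 4) × Fin 4 → ℝ → ℝ → ℝ) (θ₂ Eb e₂ : ℕ → ℝ)
    (c : ℕ → Fin 4) (Pt : ℝ → ℝ → ℝ) (r : ℝ → ℝ) (L Tb : ℕ → ℝ → ℝ → ℝ)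
    (G : Set ℝ) (g : ℝ), IsClosed G → g ∈ G →
    (∀ l < 4, HasDerivAt (fun x => L l x x) (Sl l) g) →
    ∃ (p : ℕ → ι) (M : ℕ), ∀ k₀ : ℕ → ℕ,
    (∀ j < M, Q (p j) (k₀ j) Sa P θ c Pt r L Tb κ G g) → ∃ q₁ : ℝ, 0 < q₁ ∧
  ∀ {S : PCl 4} {al' : ℝ} {g₀ : ℝ → ℝ} {N S₂ : ℕ} {A V : ℕ → ℝ}
    {V' : ℕ → ℝ} {K ε q t : ℝ} {sp : ℕ → ℝ → ℝ} {φ' : ℝ} {lam : ℝ → ℝ} {bl pl : ℕ → ℝ},
    (∀ (τ : ℝ) (J : ℕ) (F : Fam 4 J) (A : F.Ω → Prop), S.St τ J F A → Sa.St τ J F A) → q < q₁ →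
    RecG S al' g₀ P θ P₂ θ₂ Eb e₂ c Pt r h K₀ g L Tb Sl κ G S₀ N A V S₂ ((cb + co) * M₀ + 1) V'
      K ε q t →
    (∀ j < (cb + co) * M₀ + 1, V' j = chV M₀ cb j) → (cb : ℝ) + co + Λ' ≤ K → ε ≤ e' →
    φ' ≤ e' * q → q / M₀ ≤ φ' →
    BoxT S c 1 2 D (fun l v => L l v v) sp {v | ∃ j < (cb + co) * M₀ + 1, v = t + chV M₀ cb j * q}
      (Sl 3) h (t - cb * q) (t + co * q) t q Λ' φ' e' lam →
    AffAt S c (fun l v => L l v v) t (e' * q) bl pl →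
    (∀ v ∈ {v | ∃ j < (cb + co) * M₀ + 1, v = t + chV M₀ cb j * q},
      ∃ bl' pl' : ℕ → ℝ, AffAt S c (fun l v => L l v v) v (e' * q) bl' pl') →
    ∀ v ∈ {v | ∃ j < (cb + co) * M₀ + 1, v = t + chV M₀ cb j * q}, t ≤ v → v ≤ t + Λ * q →
      IMN S c (fun l v => L l v v) bl pl v (Λ * q) (e * q)

end Pool.T4T72
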