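import Pool.Agent.H36.T4.Cls

/-!
# The inputs of the tie in a subclass
-/

set_option autoImplicit false

namespace Pool.T4T72

open Finset Real MvPolynomial
open Pool.Agent.H49.Ent Pool.Agent.H32.Dense
open Pool.STK hiding pr2
open Pool.KA Pool.KSAT Pool.K2S Pool.PB Pool.S6C
open Pool.GEN Pool.CHT Pool.LA91 Pool.RCD Pool.V0F
open Pool.OWN68 (RawN)
open Pool.V0R (LadR)
open Pool.V0T (LadT)
open Pool.T4A95 (ActI)
open Pool.T4C72 (BoxT)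
open Pool.T4N (AffAt IMN)

variable {m : ℕ} {S S' : PCl m}

/-- The ladder in a subclass. -/
theorem ladT_sub (hs : ∀ (τ : ℝ) (J : ℕ) (F : Fam m J) (A : F.Ω → Prop),
    S'.St τ J F A → S.St τ J F A) {c : ℕ → Fin m} {k f : ℕ} {sn : ℕ → ℝ → ℝ} {G : Set ℝ}
    {b o φ : ℝ} (h : LadT S c k f sn G b o φ) : LadT S' c k f sn G b o φ where
  tm := by
    obtain ⟨C₀, h1⟩ := h.tm
    exact ⟨C₀, fun τ J F A a b => h1 τ J F A a (hs τ J F A b)⟩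
  pos := fun τ J F A a => h.pos τ J F A (hs τ J F A a)
  inj := h.inj
  ch := h.ch.sub hs
  att := fun w hw => by
    obtain ⟨rk, E, h1, h2, h3, h4, h5⟩ := h.att w hw
    refine ⟨rk, E, h1, h2, h3, h4, fun e he => ?_⟩
    obtain ⟨K, h6⟩ := h5 e he
    exact ⟨K, h6.sub hs⟩
  bG := h.bG
  oG := h.oG
  b0 := h.b0
  bo := h.bo
  o1 := h.o1
  φ0 := h.φ0
  fm := h.fm
  fl := h.fl
  st := h.st
  eq := h.eq
  et := h.et

/-- **The box in a subclass.** -/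
theorem boxT_sub (hs : ∀ (τ : ℝ) (J : ℕ) (F : Fam m J) (A : F.Ω → Prop),
    S'.St τ J F A → S.St τ J F A) {c : ℕ → Fin m} {k f D : ℕ} {sn sp : ℕ → ℝ → ℝ} {G : Set ℝ}
    {s hr b o w u Λ φ e : ℝ} {lam : ℝ → ℝ} (h : BoxT S c k f D sn sp G s hr b o w u Λ φ e lam) :
    BoxT S' c k f D sn sp G s hr b o w u Λ φ e lam where
  lad := ladT_sub hs h.lad
  img := h.img
  gd := fun τ J F A a => h.gd τ J F A (hs τ J F A a)
  u0 := h.u0
  wG := h.wG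
  bw := h.bw
  wo := h.wo
  o1 := h.o1
  b0 := h.b0
  room := h.room
  lin := h.lin
  lamt := h.lamt
  row := fun P₁ P₂ h1 h2 h3 x hx hx' => (h.row P₁ P₂ h1 h2 h3 x hx hx').sub hs
  lab := fun v hv h1 h2 => by
    obtain ⟨E, rd, ρ, h3, h4, h5⟩ := h.lab v hv h1 h2
    exact ⟨E, rd, ρ, h3, h4, fun e he => (h5 e he).sub hs⟩
  att := by
    obtain ⟨rk, E, h1, h2, h3, h4⟩ := h.att
    refine ⟨rk, E, h1, h2, fun e he => ?_, h4⟩
    obtain ⟨K, h5⟩ := h3 e he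
    exact ⟨K, h5.sub hs⟩
  spb := h.spb
  free := fun P w₁ x' h1 h2 h3 h4 h5 h6 => by
    obtain ⟨k₂, h7, e₀, h8, h9⟩ := h.free P w₁ x' h1 h2 h3 h4 h5 h6
    exact ⟨k₂, h7, e₀, h8, fun K => (h9 K).sub hs⟩
  nla := fun w₁ v y h1 h2 h3 h4 => by
    obtain ⟨κ₁, h5, h6⟩ := h.nla w₁ v y h1 h2 h3 h4
    exact ⟨κ₁, h5, h6.sub hs⟩
  rn := fun w₁ => by
    obtain ⟨η, h1⟩ := h.rn w₁
    exact ⟨η, h1.sub hs⟩

theorem frI_le {c : ℕ → Fin m} {r : ℕ} {sp : ℕ → ℝ → ℝ} {b w w' κ κ' : ℝ} {P : Fin r → ℝ}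
    (h : FrI S c r sp b P w w' κ) (hκ : κ ≤ κ') : FrI S c r sp b P w w' κ' := by
  obtain ⟨k₂, h1, e₀, h2, h3⟩ := h
  refine ⟨k₂, h1, e₀, h2, fun K => Bas.mono 0 (h3 K) ?_⟩
  rintro J - F A h4 V z V' z' a b u hu
  have h5 := h4 V z V' z' a b u hu
  have h6 := mul_le_mul_of_nonneg_right hκ (Nat.cast_nonneg (α := ℝ) J)
  linarith

theorem nlI_le {k : Fin m} {w v Λv Λo κ κ' : ℝ} (h : NlI S k w v Λv Λo κ) (hκ : κ ≤ κ') :
    NlI S k w v Λv Λo κ' := by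
  obtain ⟨κ₁, h1, h3⟩ := h
  refine ⟨κ₁, h1, Bas.mono 0 h3 ?_⟩
  rintro J - F A h4 V z V' z' a b
  have h5 := h4 V z V' z' a b
  have h6 := mul_le_mul_of_nonneg_right hκ (Nat.cast_nonneg (α := ℝ) J)
  linarith

/-- **A smaller room, a larger error.** -/
theorem boxT_mono {c : ℕ → Fin m} {k f D : ℕ} {sn sp : ℕ → ℝ → ℝ} {G : Set ℝ}
    {s hr b o w u Λ Λ' φ e e' : ℝ} {lam : ℝ → ℝ} (h : BoxT S c k f D sn sp G s hr b o w u Λ φ e lam)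
    (hΛ : Λ' ≤ Λ) (he : e ≤ e') : BoxT S c k f D sn sp G s hr b o w u Λ' φ e' lam := by
  have hΛu : Λ' * u ≤ Λ * u := mul_le_mul_of_nonneg_right hΛ h.u0.le
  have heu : e * u ≤ e' * u := mul_le_mul_of_nonneg_right he h.u0.le
  exact {
    lad := h.lad
    img := h.img
    gd := h.gd
    u0 := h.u0
    wG := h.wG
    bw := by linarith [h.bw]
    wo := by linarith [h.wo]
    o1 := by linarith [h.o1]
    b0 := by linarith [h.b0]
    room := fun l hl => ⟨by linarith [(h.room l hl).1], by linarith [(h.room l hl).2]⟩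
    lin := h.lin
    lamt := h.lamt
    row := fun P₁ P₂ h1 h2 h3 => h.row P₁ P₂ (by linarith) (by linarith) h3
    lab := fun v hv h1 h2 => by
      obtain ⟨E, rd, ρ, h3, h4, h5⟩ := h.lab v hv h1 h2
      exact ⟨E, rd, ρ, h3, fun l hl => ⟨(h4 l hl).1, by linarith [(h4 l hl).2.1], (h4 l hl).2.2⟩,
        h5⟩
    att := by
      obtain ⟨rk, E, h1, h2, h3, h4⟩ := h.att
      exact ⟨rk, E, h1, h2, h3, by linarith⟩
    spb := h.spb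
    free := fun P w₁ x' h1 h2 h3 h4 h5 h6 =>
      frI_le (h.free P w₁ x' h1 h2 h3 (by linarith) (fun i => ⟨(h5 i).1, by linarith [(h5 i).2]⟩) h6)
        heu
    nla := fun w₁ v y h1 h2 h3 h4 => nlI_le (h.nla w₁ v y h1 h2 h3 (by linarith)) heu
    rn := h.rn }

theorem affAt_sub (hs : ∀ (τ : ℝ) (J : ℕ) (F : Fam m J) (A : F.Ω → Prop),
    S'.St τ J F A → S.St τ J F A) {c : ℕ → Fin m} {sn : ℕ → ℝ → ℝ} {w φ : ℝ} {bl pl : ℕ → ℝ}
    (h : AffAt S c sn w φ bl pl) : AffAt S' c sn w φ bl pl :=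
  fun l hl => ⟨(h l hl).1, (h l hl).2.1, (h l hl).2.2.sub hs⟩

/-- A larger error. -/
theorem affAt_le {c : ℕ → Fin m} {sn : ℕ → ℝ → ℝ} {w φ φ' : ℝ} {bl pl : ℕ → ℝ}
    (h : AffAt S c sn w φ bl pl) (hφ : φ ≤ φ') : AffAt S c sn w φ' bl pl :=
  fun l hl => ⟨(h l hl).1, by linarith [(h l hl).2.1], (h l hl).2.2⟩

theorem actI_sub (hs : ∀ (τ : ℝ) (J : ℕ) (F : Fam m J) (A : F.Ω → Prop),
    S'.St τ J F A → S.St τ J F A) {i : Fin m} {a P Q : ℝ} (h : ActI S i a P Q) : ActI S' i a P Q :=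
  fun e he => (h e he).sub hs

theorem imn_sub (hs : ∀ (τ : ℝ) (J : ℕ) (F : Fam m J) (A : F.Ω → Prop),
    S'.St τ J F A → S.St τ J F A) {c : ℕ → Fin m} {sn : ℕ → ℝ → ℝ} {bl pl : ℕ → ℝ}
    {w room κ : ℝ} (h : IMN S c sn bl pl w room κ) : IMN S' c sn bl pl w room κ :=
  ⟨fun e he => by
    obtain ⟨e₀, h0, h1⟩ := h.one e he
    exact ⟨e₀, h0, h1.sub hs⟩, fun e he => by
    obtain ⟨e₀, h0, h1⟩ := h.two e he
    exact ⟨e₀, h0, h1.sub hs⟩⟩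

end Pool.T4T72
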