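import Pool.Agent.H72.T4T.Cls
import Pool.Agent.H72.T4C.Cons
import Pool.Agent.H71.NV.Nvb
import Pool.Agent.H62.T4.Cnt

/-!
# The tie of three targets over one slope-one place, from the dichotomy and the images

`affAt_of`: affine labels at all windows of a record. `tieH_of`: `TieHStmt`. `tieEx_of`: `TieExStmt`.
-/

set_option autoImplicit false

namespace Pool.T4T72

open Finset Real MvPolynomial
open Pool.Agent.H49.Ent Pool.Agent.H32.Dense Pool.STK Pool.KA Pool.KSAT Pool.K2S Pool.PB Pool.S6C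
open Pool.GEN Pool.RCD Pool.LA91 Pool.PKG Pool.V0F
open Pool.CDX (AffL AfG)
open Pool.T4C72 (BoxT TieW TieHStmt TieExStmt SlEq SubW)
open Pool.T4A95 (ActI ActG her_act aePG_act)
open Pool.T4N (AffAt IMN T4ClsStmt)

/-- **Affine labels at all windows of a record.** -/
theorem affAt_of {S : PCl 4} {c : ℕ → Fin 4} {L : ℕ → ℝ → ℝ → ℝ} {G : Set ℝ} {g : ℝ}
    (h : ∀ l < 3, AfG S c (fun w l => L l w w) G g (1 + l)) {η R₀ : ℝ} (hη : 0 < η)
    (hR : 0 < R₀) : ∃ q₁ : ℝ, 0 < q₁ ∧ ∀ q : ℝ, 0 < q → q < q₁ → ∀ v ∈ G, |v - g| ≤ R₀ * q →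
      ∃ bl pl : ℕ → ℝ, AffAt S c (fun l v => L l v v) v (η * q) bl pl := by
  obtain ⟨ρ₁, hρ₁, h1⟩ := h 0 (by norm_num) (η / R₀) (by positivity)
  obtain ⟨ρ₂, hρ₂, h2⟩ := h 1 (by norm_num) (η / R₀) (by positivity)
  obtain ⟨ρ₃, hρ₃, h3⟩ := h 2 (by norm_num) (η / R₀) (by positivity)
  refine ⟨min ρ₁ (min ρ₂ ρ₃) / R₀, by positivity, fun q hq hq1 v hv hvg => ?_⟩
  rw [lt_div_iff₀ hR] at hq1
  have hRq : 0 < R₀ * q := by positivity
  have e1 : η / R₀ * (R₀ * q) = η * q := by field_simp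
  have hvg' := abs_le.1 hvg
  obtain ⟨b₁, p₁, c1, c2, c3⟩ := h1 (R₀ * q) hRq (by linarith [min_le_left ρ₁ (min ρ₂ ρ₃)]) v hv
    (by linarith) (by linarith)
  obtain ⟨b₂, p₂, c4, c5, c6⟩ := h2 (R₀ * q) hRq (by
    linarith [(min_le_right ρ₁ (min ρ₂ ρ₃)).trans (min_le_left _ _)]) v hv
    (by linarith) (by linarith)
  obtain ⟨b₃, p₃, c7, c8, c9⟩ := h3 (R₀ * q) hRq (by
    linarith [(min_le_right ρ₁ (min ρ₂ ρ₃)).trans (min_le_right _ _)]) v hv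
    (by linarith) (by linarith)
  rw [e1] at c2 c5 c8
  refine ⟨fun l => if l = 0 then b₁ else if l = 1 then b₂ else b₃,
    fun l => if l = 0 then p₁ else if l = 1 then p₂ else p₃, fun l hl => ?_⟩
  obtain rfl | rfl | rfl : l = 0 ∨ l = 1 ∨ l = 2 := by omega
  · exact ⟨c1, c2, c3⟩
  · exact ⟨c4, c5, c6⟩
  · exact ⟨c7, c8, c9⟩

/-- The boxes of the list. -/
def bxs (L n : ℕ) : Finset (ℕ × ℕ) :=
  (((Finset.Icc 1 n) ×ˢ (Finset.range (L ^ n + 1))).filter fun y => y.2 ≤ L ^ y.1).image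
    fun y => (2 * L ^ y.1, 2 * y.2)

theorem mem_bxs {L n k p : ℕ} (hL : 1 ≤ L) (hk : 1 ≤ k) (hkn : k ≤ n) (hp : p ≤ L ^ k) :
    (2 * L ^ k, 2 * p) ∈ bxs L n := by
  refine mem_image.2 ⟨(k, p), mem_filter.2 ⟨mem_product.2 ⟨mem_Icc.2 ⟨hk, hkn⟩, mem_range.2 ?_⟩, hp⟩,
    rfl⟩
  have := Nat.pow_le_pow_right hL hkn
  show p < L ^ n + 1
  omega

theorem of_mem_bxs {L n : ℕ} {x : ℕ × ℕ} (hx : x ∈ bxs L n) :
    ∃ k p : ℕ, 1 ≤ k ∧ k ≤ n ∧ p ≤ L ^ k ∧ x = (2 * L ^ k, 2 * p) := by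
  obtain ⟨y, hy, rfl⟩ := mem_image.1 hx
  obtain ⟨h1, h2⟩ := mem_filter.1 hy
  obtain ⟨h3, h4⟩ := mem_product.1 h1
  obtain ⟨h5, h6⟩ := mem_Icc.1 h3
  exact ⟨y.1, y.2, h5, h6, h2, rfl⟩

/-- The properties of the windows. -/
abbrev TieQ {ι : Type} (Q : PropG 4 ι) : PropG 4 (Unit ⊕ (Unit ⊕ (ℕ ⊕ ι))) :=
  sumQ (AfQ : PropG 4 Unit) (sumQ (NafQ : PropG 4 Unit) (sumQ (ActG : PropG 4 ℕ) Q))

/-- The parameters. -/
def tieP {ι : Type} (pa : ℕ) (p : ℕ → ι) : ℕ → Unit ⊕ (Unit ⊕ (ℕ ⊕ ι))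
  | 0 => Sum.inl ()
  | 1 => Sum.inr (Sum.inl ())
  | 2 => Sum.inr (Sum.inr (Sum.inl pa))
  | j + 3 => Sum.inr (Sum.inr (Sum.inr (p j)))

/-- **The tie** from the dichotomy and the images. -/
theorem tieH_of (hC : T4ClsStmt) {h : ℝ} {Sl : ℕ → ℝ} {κ : ℕ → Kg} {ι : Type} {Q : PropG 4 ι}
    (hI : ImgStmt h Sl κ Q) (h0 : 0 < h) (h1 : h ≤ 1) (hSl : SlEq Sl) :
    TieHStmt 1 2 (fun i : Fin (2 + 1) => (i : ℕ)) h Sl κ (TieQ Q) := by
  intro D S₀ K₀ hD hS₀ hK₀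
  obtain ⟨s0, s3, s1, s2⟩ := hSl
  refine ⟨D, le_rfl, fun δ T₀ hδ => ?_⟩
  obtain ⟨T, L, n, ΛI, eI, Λ₀, φs, hT, hL, hn, hΛI, heI, hΛ₀, hφs, H⟩ :=
    tie_cls hC (Sl 3) h s3 h0 h1 δ T₀ hδ
  obtain ⟨Λ', e', hΛ', he', hI⟩ := hI D S₀ K₀ ΛI eI hD hS₀ hK₀ hΛI heI
  refine ⟨T, hT, bxs L n, 1, 0, fun _ => 0, fun _ => 0, le_rfl, fun x hx => ?_,
    fun j hj => absurd hj (Nat.not_lt_zero j), fun S₂ hS₂ => ?_⟩
  · obtain ⟨k, p, hk, hkn, hp, rfl⟩ := of_mem_bxs hx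
    have h2 : 1 ≤ L ^ k := Nat.one_le_pow _ _ hL
    refine ⟨by
      show 1 ≤ 2 * L ^ k
      omega, ?_⟩
    have h3 : (0 : ℝ) < ((2 * L ^ k : ℕ) : ℝ) := by exact_mod_cast (by omega : 0 < 2 * L ^ k)
    show ((2 * p : ℕ) : ℝ) / ((2 * L ^ k : ℕ) : ℝ) ≤ 1
    rw [div_le_one h3]
    exact_mod_cast (by omega : 2 * p ≤ 2 * L ^ k)
  obtain ⟨Λ, hΛ⟩ : ∃ Λ, Λ = max Λ₀ Λ' := ⟨_, rfl⟩
  have hΛ₁ : Λ₀ ≤ Λ := by rw [hΛ]; exact le_max_left _ _
  have hΛ₂ : Λ' ≤ Λ := by rw [hΛ]; exact le_max_right _ _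
  have hΛ1 : 1 ≤ Λ := hΛ₀.trans hΛ₁
  refine ⟨Λ, φs, D, hΛ1, hφs, fun φ hφ hφs' => ?_⟩
  obtain ⟨e, he, H⟩ := H φ hφ hφs'
  obtain ⟨em, hem⟩ : ∃ em, em = min e e' := ⟨_, rfl⟩
  have hem0 : 0 < em := by rw [hem]; exact lt_min he he'
  have hem1 : em ≤ e := by rw [hem]; exact min_le_left _ _
  have hem2 : em ≤ e' := by rw [hem]; exact min_le_right _ _
  refine ⟨em, hem0, ?_⟩
  intro M₀ cb co hM₀ hdvd hcb hco Sa P θ P₂ θ₂ Eb e₂ c Pt r Lv Tb G g hG hg hder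
  obtain ⟨pI, MI, hI⟩ := hI M₀ cb co hM₀ (hΛ₂.trans hcb) (by linarith) Sa P θ P₂ θ₂ Eb e₂ c Pt r
    Lv Tb G g hG hg hder
  obtain ⟨pa, hpa⟩ := exists_pow_lt_of_lt_one (show 0 < e / Λ by positivity)
    (show (1 / 2 : ℝ) < 1 by norm_num)
  have hpa' : (1 / 2 : ℝ) ^ pa * Λ ≤ e := by
    rw [lt_div_iff₀ (by linarith)] at hpa
    exact hpa.le
  refine ⟨tieP pa pI, MI + 3, fun _ => 0, fun _ => 1, fun _ _ => one_pos, fun k₀ hk₀ => ?_⟩
  have hd : ∀ l < 4, deriv (fun x => Lv l x x) g = Sl l := fun l hl => (hder l hl).deriv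
  have hAf : AfG Sa c (fun w l => Lv l w w) G g 1 ∧ AfG Sa c (fun w l => Lv l w w) G g 2 :=
    hk₀ 0 (by omega) (by norm_num) (by rw [hd 1 (by norm_num), s1]; exact s3)
  have hNaf : AfG Sa c (fun w l => Lv l w w) G g 3 :=
    hk₀ 1 (by omega) (by norm_num) (by rw [hd 1 (by norm_num), s1]; exact s3)
      (by rw [hd 1 (by norm_num), hd 2 (by norm_num), s1, s2])
      (by rw [hd 2 (by norm_num), hd 3 (by norm_num), s2])
  have hAct : ∀ P Q : ℝ, 0 ≤ P → P < Q → Q ≤ (1 / 2) ^ (k₀ 2) → (1 / 2) ^ pa * Q ≤ Q - P →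
      ActI Sa (c 0) ((1 / 2) ^ (k₀ 2)) P Q := hk₀ 2 (by omega)
  obtain ⟨qI, hqI, hI⟩ := hI (fun j => k₀ (j + 3)) fun j hj => hk₀ (j + 3) (by omega)
  obtain ⟨qA, hqA, hAA⟩ := affAt_of (S := Sa) (c := c) (L := Lv) (G := G) (g := g)
    (fun l hl => by
      obtain rfl | rfl | rfl : l = 0 ∨ l = 1 ∨ l = 2 := by omega
      · exact hAf.1
      · exact hAf.2
      · exact hNaf) hem0 (show 0 < K₀ + cb + co by
      have h2 : (0 : ℝ) ≤ cb := Nat.cast_nonneg cb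
      have h3 : (0 : ℝ) ≤ co := Nat.cast_nonneg co
      linarith)
  refine ⟨min qI (min qA ((1 / 2) ^ (k₀ 2) / Λ)), lt_min hqI (lt_min hqA (by positivity)), ?_⟩
  intro S al' g₀ N A V V' K ε q t x sp φ' lam hSa hq hx R hSub hV' hK hε hφ' hM Bx0 Bxs
  have hq0 : 0 < q := R.q0
  have hqI' : q < qI := hq.trans_le (min_le_left _ _)
  have hqA' : q < qA := hq.trans_le ((min_le_right _ _).trans (min_le_left _ _))
  have hqa : Λ * q < (1 / 2) ^ (k₀ 2) := by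
    have h2 : q < (1 / 2) ^ (k₀ 2) / Λ := hq.trans_le ((min_le_right _ _).trans (min_le_right _ _))
    rw [lt_div_iff₀ (by linarith)] at h2
    linarith
  obtain ⟨Gs, hGs⟩ : ∃ Gs : Set ℝ, Gs = {v | ∃ j < (cb + co) * M₀ + 1, v = t + chV M₀ cb j * q} :=
    ⟨_, rfl⟩
  have hcb0 : (0 : ℝ) ≤ cb := Nat.cast_nonneg cb
  have hco0 : (0 : ℝ) ≤ co := Nat.cast_nonneg co
  have hM0 : (0 : ℝ) < M₀ := by exact_mod_cast hM₀
  have hΛq : Λ * q ≤ co * q := mul_le_mul_of_nonneg_right (by linarith) hq0.le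
  have hKq : (cb + co + Λ) * q ≤ K * q := mul_le_mul_of_nonneg_right hK hq0.le
  have hqe : em * q ≤ e * q := mul_le_mul_of_nonneg_right hem1 hq0.le
  have hqe' : em * q ≤ e' * q := mul_le_mul_of_nonneg_right hem2 hq0.le
  have hεq : ε * q ≤ em * q := mul_le_mul_of_nonneg_right hε hq0.le
  have hKcc : ((cb : ℝ) + co) * q ≤ K * q := by
    have : 0 ≤ Λ * q := by positivity
    linarith
  have hcbq : 0 ≤ (cb : ℝ) * q := by positivity
  have hcoq : 0 ≤ (co : ℝ) * q := by positivity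
  have hGb : ∀ v ∈ Gs, v ∈ G ∧ t - cb * q ≤ v ∧ v ≤ t + co * q := by
    intro v hv
    rw [hGs] at hv
    obtain ⟨j, hj, rfl⟩ := hv
    have h2 := R.memG.2 j hj
    rw [hV' j hj] at h2
    have h3 : 0 ≤ (j : ℝ) / M₀ := by positivity
    have h4 : (j : ℝ) / M₀ ≤ cb + co := by
      rw [div_le_iff₀ hM0]
      exact_mod_cast (by omega : j ≤ (cb + co) * M₀)
    have h5 := mul_nonneg h3 hq0.le
    have h6 := mul_le_mul_of_nonneg_right h4 hq0.le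
    refine ⟨h2, ?_, ?_⟩
    · unfold chV
      linarith
    · unfold chV
      linarith
  have hAll : ∀ v ∈ Gs, ∃ bl' pl' : ℕ → ℝ,
      AffAt S c (fun l v => Lv l v v) v (em * q) bl' pl' := by
    intro v hv
    obtain ⟨h2, h3, h4⟩ := hGb v hv
    have h5 := abs_le.1 R.near
    obtain ⟨bl', pl', h6⟩ := hAA q hq0 hqA' v h2 (by
      rw [abs_le]
      constructor
      · linarith
      · linarith)
    exact ⟨bl', pl', affAt_sub hSa h6⟩
  have htG : t ∈ Gs := by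
    rw [hGs]
    exact Bx0.wG
  obtain ⟨bl, pl, hAt⟩ := hAll t htG
  have hIm := hI hSa hqI' R hV' (by linarith) (hε.trans hem2) (hφ'.trans hqe') hM
    (boxT_mono Bx0 hΛ₂ hem2) (affAt_le hAt hqe') (fun v hv => by
      obtain ⟨bl', pl', h6⟩ := hAll v (by rw [hGs]; exact hv)
      exact ⟨bl', pl', affAt_le h6 hqe'⟩)
  have hmem0 := hdvd _ (mem_bxs (L := L) (n := n) (k := n) (p := 0) hL hn le_rfl (Nat.zero_le _))
  obtain ⟨m', hm'⟩ : ∃ m', M₀ = 2 * L ^ n * m' := hmem0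
  have hcast : ∀ k p : ℕ, ((2 * p : ℕ) : ℝ) / ((2 * L ^ k : ℕ) : ℝ) = (p : ℝ) / (L : ℝ) ^ k :=
    fun k p => by
    have hL0 : (0 : ℝ) < (L : ℝ) ^ k := by
      have : (0 : ℝ) < L := by exact_mod_cast hL
      positivity
    push_cast
    field_simp
  have hcast' : ∀ k : ℕ, ((2 * L ^ k : ℕ) : ℝ) = 2 * (L : ℝ) ^ k := fun k => by push_cast; rfl
  obtain ⟨S', hne, hsub, k, p, hk, hkn, hp, hW⟩ := H (D := D) (S := S) (c := c)
    (sn := fun l v => Lv l v v) (sp := sp) (G := Gs) (b := t - cb * q) (o := t + co * q) (t := t)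
    (q := q) (φ' := φ') (a := (1 / 2) ^ (k₀ 2)) (M := 4 * ((4 : ℕ) : ℝ) + 1) (Λ := Λ) (lam := lam)
    (bl := bl) (pl := pl) hΛ₁ hD R.ne (Pool.T462.recG_cnt R)
    (by
      rw [hGs]
      exact boxT_mono Bx0 le_rfl hem1)
    (fun k p hk hkn hp => by
      obtain ⟨sp', h2⟩ := Bxs _ (mem_bxs hL hk hkn hp)
      refine ⟨sp', ?_⟩
      rw [← hcast k p, ← hcast' k, hGs]
      exact boxT_mono h2 le_rfl hem1) (hφ'.trans hqe)
    (fun v hv h2 h3 => (R.l0 v (by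
      rw [abs_le]
      constructor <;> linarith)).trans (hεq.trans hqe))
    (fun l hl => by
      have h2 := R.t0
      have h3 := R.t1
      have h4 : 0 ≤ K * q := by linarith
      have h5 : t ≤ Lv (1 + l) t t := rec_low (r := 3) R (by omega) (by linarith) (by linarith)
      have h6 : 0 < e * q := by positivity
      linarith) (affAt_le hAt hqe)
    (fun v hv _ _ => by
      obtain ⟨bl', pl', h6⟩ := hAll v hv
      exact ⟨bl', pl', affAt_le h6 hqe⟩)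
    (fun v hv h2 h3 => hIm v (by rw [← hGs]; exact hv) h2 h3) (by positivity)
    (fun P Q h2 h3 h4 => actI_sub hSa (hAct P Q h2 (by
      have : 0 < e * q := by positivity
      linarith) (by linarith) (by
      have h5 : (1 / 2 : ℝ) ^ pa * Q ≤ (1 / 2) ^ pa * (Λ * q) :=
        mul_le_mul_of_nonneg_left h4 (by positivity)
      have h6 : (1 / 2 : ℝ) ^ pa * Λ * q ≤ e * q := mul_le_mul_of_nonneg_right hpa' hq0.le
      linarith)))
    (fun i hi => by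
      rw [hGs]
      have hm1 : 1 ≤ m' := by
        rcases Nat.eq_zero_or_pos m' with h2 | h2
        · rw [h2, Nat.mul_zero] at hm'
          omega
        · exact h2
      have hco1 : 1 ≤ co := by
        have : (1 : ℝ) ≤ co := by linarith
        exact_mod_cast this
      refine ⟨cb * M₀ + i * (2 * m'), ?_, ?_⟩
      · have h2 : i * (2 * m') ≤ co * M₀ := by
          calc i * (2 * m') ≤ L ^ n * (2 * m') := Nat.mul_le_mul_right _ hi
            _ = 1 * M₀ := by rw [hm']; ring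
            _ ≤ co * M₀ := Nat.mul_le_mul_right _ hco1
        have h3 : (cb + co) * M₀ = cb * M₀ + co * M₀ := by ring
        omega
      · have hL0 : (0 : ℝ) < (L : ℝ) ^ n := by
          have : (0 : ℝ) < L := by exact_mod_cast hL
          positivity
        have hm0 : (0 : ℝ) < m' := by exact_mod_cast hm1
        unfold chV
        have h4 : (M₀ : ℝ) = 2 * (L : ℝ) ^ n * m' := by rw [hm']; push_cast; rfl
        have h5 : ((cb * M₀ + i * (2 * m') : ℕ) : ℝ) / M₀ - cb = (i : ℝ) / (L : ℝ) ^ n := by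
          push_cast
          rw [h4]
          field_simp
          ring
        rw [h5])
  refine ⟨S', hne, hsub, (2 * L ^ k, 2 * p), mem_bxs hL hk hkn hp, ?_⟩
  rw [← hcast k p, ← hcast' k, hGs] at hW
  exact hW

/-- **The tie of three targets** over one slope-one place, for all kinds. -/
theorem tieEx_of (hC : T4ClsStmt) (hN : NafNear 4)
    (hI : ∀ h : ℝ, 0 < h → h ≤ 1 → ∃ (ι : Type) (_ : Countable ι) (Q : PropG 4 ι), HerQ Q ∧
      ((∀ k, 1 ≤ k → k < 4 → FZX k) → AePG 4 Q) ∧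
      ∀ (κ : ℕ → Kg) (Sl : ℕ → ℝ), SlEq Sl → ImgStmt h Sl κ Q) (κ : ℕ → Kg) :
    TieExStmt κ SlEq := by
  intro h h0 h1
  obtain ⟨ι, hc, Q, hQ, hA, hI⟩ := hI h h0 h1
  refine ⟨_, inferInstance, TieQ Q, her_sum (her_af 4) (her_sum (her_naf 4)
    (her_sum (her_act 4) hQ)), fun hZ => aePG_sum (aePG_af 4) (her_af 4)
    (aePG_sum (aePG_naf hN) (her_naf 4) (aePG_sum (aePG_act 4) (her_act 4) (hA hZ))),
    fun Sl hS => tieH_of hC (hI κ Sl hS) h0 h1 hS⟩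

end Pool.T4T72
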